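import Pool.Agent.TH207.NC.Step
import Pool.Agent.TH545.Nag.Nf

/-! Triangles of real slopes with lists of weights. -/

set_option autoImplicit false

namespace Pool.Agent.TH207.NC

open Finset Pool.Agent.TH176.Nag
open Pool.Agent.H350R3 Pool.Agent.H350R3.GR

theorem Emp_equiv {ι κ : Type} (e : κ ≃ ι) {w : ι → ℕ} {S : Set (ℤ × ℤ)} (h : Emp w S) :
    Emp (fun i => w (e i)) S := by
  obtain ⟨K, _, _, x, y, hx, hy, hf⟩ := h
  refine ⟨K, inferInstance, inferInstance, fun i => x (e i), fun i => y (e i), fun i => hx _,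
    fun i => hy _, fun f h1 h2 => hf f h1 fun i => ?_⟩
  have := h2 (e.symm i)
  simpa using this

theorem mult_symm {A B : ℕ} {L : List ℕ} (h : Mult A B L) : Mult B A L := by
  induction h with
  | left A => exact Mult.right A
  | right B => exact Mult.left B
  | big A B L hB hBA _ ih => exact Mult.small B A L hB hBA ih
  | small A B L hA hAB _ ih => exact Mult.big B A L hA hAB ih

/-- positions in the concatenation of a scaled list with a list -/
def mE (a : ℝ) (L₁ L₂ : List ℝ) :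
    Fin L₁.length ⊕ Fin L₂.length ≃ Fin (L₁.map (fun t => a * t) ++ L₂).length :=
  (Equiv.sumCongr (finCongr (List.length_map (fun t : ℝ => a * t)).symm) (Equiv.refl _)).trans
    (appE (L₁.map fun t => a * t) L₂)

theorem mE_get (a : ℝ) (L₁ L₂ : List ℝ) (i : Fin L₁.length ⊕ Fin L₂.length) :
    (L₁.map (fun t => a * t) ++ L₂).get (mE a L₁ L₂ i) =
      Sum.elim (fun i => a * L₁.get i) L₂.get i := by
  unfold mE
  rw [Equiv.trans_apply, appE_get]
  rcases i with i | i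
  · simp
  · simp

theorem app_emp {a : ℝ} {L₁ L₂ : List ℝ} {w : Fin (L₁.map (fun t => a * t) ++ L₂).length → ℕ}
    {S : Set (ℤ × ℤ)}
    (h : Emp (Sum.elim (fun i => w (mE a L₁ L₂ (Sum.inl i))) (fun i => w (mE a L₁ L₂ (Sum.inr i))))
      S) : Emp w S := by
  have h1 := Emp_equiv (mE a L₁ L₂).symm h
  have e : (fun i => (Sum.elim (fun i => w (mE a L₁ L₂ (Sum.inl i)))
      (fun i => w (mE a L₁ L₂ (Sum.inr i)))) ((mE a L₁ L₂).symm i)) = w := by
    funext i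
    obtain ⟨j, rfl⟩ := (mE a L₁ L₂).surjective i
    rw [Equiv.symm_apply_apply]
    rcases j with j | j <;> rfl
  rwa [e] at h1

theorem app_sum (a : ℝ) (L₁ L₂ : List ℝ) (w : Fin (L₁.map (fun t => a * t) ++ L₂).length → ℕ) :
    ∑ i, (L₁.map (fun t => a * t) ++ L₂).get i * (w i : ℝ) =
      a * ∑ i, L₁.get i * (w (mE a L₁ L₂ (Sum.inl i)) : ℝ) +
      ∑ i, L₂.get i * (w (mE a L₁ L₂ (Sum.inr i)) : ℝ) := by
  rw [← (mE a L₁ L₂).sum_comp, Fintype.sum_sum_type]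
  simp only [mE_get, Sum.elim_inl, Sum.elim_inr]
  congr 1
  rw [Finset.mul_sum]
  exact Finset.sum_congr rfl fun i _ => by ring

/-- the linear system on triangles of slope sum `s` and left slope `μ` is empty if the base is
shorter than the weighted sum -/
def Tr (s μ : ℝ) (L : List ℝ) (c : ℝ) : Prop :=
  ∀ (α β : ℝ) (w : Fin L.length → ℕ), c * (β - α) < ∑ i, L.get i * (w i : ℝ) →
    Emp w (Reg α β μ (s - μ))

theorem Tr.nil (μ : ℝ) : Tr 0 μ [] 1 := by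
  intro α β w hw
  have h0 : ∑ i, ([] : List ℝ).get i * (w i : ℝ) = 0 := by
    apply Finset.sum_eq_zero
    intro i _
    exact i.elim0
  rw [h0] at hw
  refine (Emp_empty w).mono ?_
  rintro ⟨a, b⟩ ⟨h1, h2, h3⟩
  simp only at h1 h2 h3
  exfalso
  linarith

/-- the slopes can be changed if the slope sum is inverted -/
theorem Tr.apex {s μ c : ℝ} {L : List ℝ} (hs : 0 < s) (h : Tr (1 / s) 0 L c) :
    Tr s μ L (c / s) := by
  intro α β w hw
  have h1 := h 0 ((β - α) / s) w (by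
    have e : c * ((β - α) / s - 0) = c / s * (β - α) := by ring
    rw [e]; exact hw)
  refine Emp_flat 0 1 0 1 (by norm_num) ?_ h1
  rintro ⟨a, b⟩ T n ⟨hb, -, hr⟩ ⟨-, hl', -⟩ hn
  simp only at hb hr hl'
  push_cast at hl'
  have hb0 : (0 : ℝ) ≤ b := by exact_mod_cast hb
  have hn' : (n : ℝ) ≤ T := by exact_mod_cast hn
  refine ⟨by simp, ?_, ?_⟩
  · simp only
    push_cast
    linarith
  · simp only
    push_cast
    have e : (β - α) / s - (1 / s - 0) * n = (β - α - n) / s := by ring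
    rw [e, le_div_iff₀ hs]
    linarith

theorem Tr.euclid {A B : ℕ} (hA : 0 < A) (hB : 0 < B) {L : List ℕ} (hL : Mult A B L) (μ : ℝ) :
    Tr ((A : ℝ) / B) μ (L.map fun m : ℕ => (m : ℝ)) B := by
  have hA' : (0 : ℝ) < A := by exact_mod_cast hA
  have hB' : (0 : ℝ) < B := by exact_mod_cast hB
  have h0 : Tr ((B : ℝ) / A) 0 (L.map fun m : ℕ => (m : ℝ)) A := by
    intro α β w hw
    obtain ⟨e, he⟩ : ∃ e : Fin L.length ≃ Fin (L.map fun m : ℕ => (m : ℝ)).length,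
        e = finCongr (List.length_map (fun m : ℕ => (m : ℝ))).symm := ⟨_, rfl⟩
    have h1 : Emp (fun i => w (e i)) (Reg α β 0 ((B : ℝ) / A)) := by
      refine Pool.Agent.TH545.Nag.Emp_euclid hB hA (mult_symm hL) _ ?_
      rw [← e.sum_comp] at hw
      have h2 : ∀ i, (L.map fun m : ℕ => (m : ℝ)).get (e i) = (L.get i : ℝ) := by
        intro i
        rw [he]
        simp
      simp only [h2] at hw
      linarith
    have h2 := Emp_equiv e.symm h1
    simp only [Equiv.apply_symm_apply] at h2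
    rwa [sub_zero]
  have h1 := Tr.apex (s := (A : ℝ) / B) (μ := μ) (c := A) (by positivity) (by
    rw [one_div_div]; exact h0)
  have e : (A : ℝ) / (A / B) = B := by field_simp
  rwa [e] at h1

theorem Tr.shift {s μ c : ℝ} {L : List ℝ} (h : Tr s μ L c) (m : ℤ) : Tr s (μ + m) L c := by
  intro α β w hw
  refine (h α β w hw).comap 1 (-m) 0 1 0 0 (by norm_num) ?_
  rintro ⟨a, b⟩ ⟨h1, h2, h3⟩
  simp only at h1 h2 h3
  refine ⟨by simpa using h1, ?_, ?_⟩
  · simp only; push_cast; linarith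
  · simp only; push_cast; linarith

theorem Tr.mirror {s μ c : ℝ} {L : List ℝ} (h : Tr s μ L c) : Tr s (s - μ) L c := by
  intro α β w hw
  refine (h (-β) (-α) w (by linarith)).comap (-1) 0 0 1 0 0 (by norm_num) ?_
  rintro ⟨a, b⟩ ⟨h1, h2, h3⟩
  simp only at h1 h2 h3
  refine ⟨by simpa using h1, ?_, ?_⟩
  · simp only; push_cast; linarith
  · simp only; push_cast; linarith

/-- points absorbed into the left corner of a triangle -/
theorem Tr.absorb {ι : Type} [Fintype ι] {w : ι → ℕ} {t μ c' : ℝ} {L' : List ℝ}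
    (h' : Tr t μ L' c') (hc' : 0 < c') (v : Fin L'.length → ℕ)
    {α β ν : ℝ} (h : 0 < μ + ν)
    (hw : Emp w {m : ℤ × ℤ | m ∈ Reg α β μ ν ∧
      α + (∑ i, L'.get i * (v i : ℝ)) / c' + (μ - t) * (m.2 : ℝ) ≤ (m.1 : ℝ)}) :
    Emp (Sum.elim v w) (Reg α β μ ν) := by
  obtain ⟨B, hB⟩ : ∃ B : ℝ, B = (∑ i, L'.get i * (v i : ℝ)) / c' := ⟨_, rfl⟩
  rw [← hB] at hw
  have hB' : c' * B = ∑ i, L'.get i * (v i : ℝ) := by
    rw [hB]; field_simp
  obtain ⟨S, hS⟩ : ∃ S : Set (ℤ × ℤ), S = {m | m ∈ Reg α β μ ν ∧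
      (m.1 : ℝ) < α + B + (μ - t) * (m.2 : ℝ)} := ⟨_, rfl⟩
  obtain ⟨T, hT⟩ : ∃ T : Set (ℤ × ℤ), T = {m | m ∈ Reg α β μ ν ∧
      α + B + (μ - t) * (m.2 : ℝ) ≤ (m.1 : ℝ)} := ⟨_, rfl⟩
  rw [← hT] at hw
  have hfin := Reg_finite (α := α) (β := β) h
  have hSf : S.Finite := by rw [hS]; exact hfin.subset fun m hm => hm.1
  have hTf : T.Finite := by rw [hT]; exact hfin.subset fun m hm => hm.1
  have hSv : Emp v S := by
    obtain ⟨δ, hδ0, hδ⟩ : ∃ δ : ℝ, 0 < δ ∧ ∀ m ∈ S, (m.1 : ℝ) ≤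
        α + B + (μ - t) * (m.2 : ℝ) - δ := by
      rcases S.eq_empty_or_nonempty with h1 | h1
      · refine ⟨1, one_pos, fun m hm => ?_⟩
        rw [h1] at hm
        exact absurd hm (Set.notMem_empty m)
      · obtain ⟨m0, hm0, hmax⟩ := Set.exists_max_image S
          (fun m => (m.1 : ℝ) - (μ - t) * (m.2 : ℝ)) hSf h1
        have hm0' := hm0
        rw [hS] at hm0'
        refine ⟨α + B - ((m0.1 : ℝ) - (μ - t) * (m0.2 : ℝ)),
          by have := hm0'.2; linarith, fun m hm => ?_⟩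
        have := hmax m hm
        linarith
    refine (h' α (α + B - δ) v ?_).mono ?_
    · have h2 : c' * (α + B - δ - α) = c' * B - c' * δ := by ring
      rw [h2, hB']
      have := mul_pos hc' hδ0
      linarith
    intro m hm
    have h2 := hδ m hm
    rw [hS] at hm
    obtain ⟨⟨g1, g2, g3⟩, g4⟩ := hm
    exact ⟨g1, g2, by linarith⟩
  have h1 := Emp_sep hSf hTf (μ - t) (α + B)
    (by
      intro m hm
      rw [hS] at hm
      have := hm.2
      linarith)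
    (by
      intro m hm
      rw [hT] at hm
      have := hm.2
      linarith) hSv hw
  refine h1.mono fun m hm => ?_
  by_cases h2 : (m.1 : ℝ) < α + B + (μ - t) * (m.2 : ℝ)
  · left; rw [hS]; exact ⟨hm, h2⟩
  · right; rw [hT]; exact ⟨hm, not_lt.1 h2⟩

theorem Tr.add {s μ c t c' : ℝ} {L L' : List ℝ} (hs : 0 < s + t) (hc' : 0 < c') (h' : Tr t (μ + t) L' c') (h : Tr s μ L c) :
    Tr (s + t) (μ + t) (L'.map (fun x => c / c' * x) ++ L) c := by
  intro α β w hw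
  rw [app_sum] at hw
  refine app_emp (h'.absorb hc' _ (by linarith) ?_)
  obtain ⟨B, hB⟩ : ∃ B : ℝ, B = (∑ i, L'.get i * (w (mE (c / c') L' L (Sum.inl i)) : ℝ)) / c' :=
    ⟨_, rfl⟩
  rw [← hB]
  have hB' : c / c' * ∑ i, L'.get i * (w (mE (c / c') L' L (Sum.inl i)) : ℝ) = c * B := by
    rw [hB]; ring
  rw [hB'] at hw
  refine (h (α + B) β _ (by linarith)).mono ?_
  rintro ⟨a, b⟩ ⟨⟨h1, -, h3⟩, h4⟩
  simp only at h1 h3 h4
  refine ⟨h1, ?_, ?_⟩
  · simp only; linarith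
  · simp only; linarith

theorem Tr.first {s μ c a t c' : ℝ} {L L' : List ℝ} (hs : 0 < s) (ht : 0 ≤ t) (hc0 : 0 < c')
    (u v : ℤ) (hc : IsCoprime u v) (hu : 0 ≤ u) (hq : s * a = u * μ + v) (h1 : (u : ℝ) ≤ a)
    (h2 : (u : ℝ) * t ≤ s * a) (h' : Tr t μ L' c')
    (h : Tr (s * a ^ 2 - t * (u : ℝ) ^ 2) (u * (s * a - u * t)) L c) :
    Tr s μ (L'.map (fun x => c * u / c' * x) ++ L) (c * a) := by
  intro α β w hw
  rw [app_sum] at hw
  refine app_emp (h'.absorb hc0 _ (by linarith) ?_)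
  obtain ⟨B, hB⟩ : ∃ B : ℝ, B =
    (∑ i, L'.get i * (w (mE (c * u / c') L' L (Sum.inl i)) : ℝ)) / c' := ⟨_, rfl⟩
  rw [← hB]
  have hB' : c * u / c' * ∑ i, L'.get i * (w (mE (c * u / c') L' L (Sum.inl i)) : ℝ) =
      c * u * B := by
    rw [hB]; ring
  rw [hB'] at hw
  refine Emp_first (lam := a) u v hc hu ht ?_ h1 ?_ ?_
  · rw [← hq]; ring
  · rw [← hq]; exact h2
  rw [← hq]
  have e : (a - u) * (s * a) = s * a ^ 2 - t * (u : ℝ) ^ 2 - u * (s * a - u * t) := by ring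
  rw [e]
  apply h
  linarith

theorem Tr.second {s μ c x t c' : ℝ} {L L' : List ℝ} (hs : 0 < s) (ht : 0 ≤ t) (hc0 : 0 < c')
    (u v : ℤ) (hc : IsCoprime u v)
    (hu : 0 ≤ u) (hq : t * x = u * μ + v) (hx : 0 ≤ x) (h1 : x ≤ u) (h2 : t * x ≤ s * u)
    (h' : Tr t μ L' c')
    (h : Tr (s * (u : ℝ) ^ 2 - t * x ^ 2) ((u - x) * (t * x)) L c) :
    Tr s μ (L'.map (fun y => c * x / c' * y) ++ L) (c * u) := by
  intro α β w hw
  rw [app_sum] at hw
  refine app_emp (h'.absorb hc0 _ (by linarith) ?_)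
  obtain ⟨B, hB⟩ : ∃ B : ℝ, B =
    (∑ i, L'.get i * (w (mE (c * x / c') L' L (Sum.inl i)) : ℝ)) / c' := ⟨_, rfl⟩
  rw [← hB]
  have hB' : c * x / c' * ∑ i, L'.get i * (w (mE (c * x / c') L' L (Sum.inl i)) : ℝ) =
      c * x * B := by
    rw [hB]; ring
  rw [hB'] at hw
  refine Emp_second (x := x) u v hc hu ht hx hq h1 ?_ ?_
  · rw [← hq]; linarith
  have e : (u : ℝ) * (u * (μ + (s - μ)) - t * x) =
      s * (u : ℝ) ^ 2 - t * x ^ 2 - (u - x) * (t * x) := by ring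
  rw [e]
  apply h
  linarith

/-- a flattening with the top vertex in the middle -/
theorem Tr.third {s μ c : ℝ} {L : List ℝ} (u v : ℤ) (hc : IsCoprime u v)
    (hu : 0 ≤ u) (hq : 0 ≤ u * μ + v) (h1 : u * μ + v ≤ s * u)
    (h : Tr (s * (u : ℝ) ^ 2) (u * (u * μ + v)) L c) :
    Tr s μ L (c * u) := by
  intro α β w hw
  obtain ⟨p, q, hpq⟩ := hc
  refine Emp_flat u v p q (by linarith) ?_ (h (u * α) (u * β) w (by linarith))
  rintro ⟨a, b⟩ T n ⟨hb, -, -⟩ ⟨-, hl', hr'⟩ hn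
  simp only at hb hr' hl'
  push_cast at hl' hr'
  have hu' : (0 : ℝ) ≤ u := by exact_mod_cast hu
  have hb0 : (0 : ℝ) ≤ b := by exact_mod_cast hb
  have hn' : (n : ℝ) ≤ T := by exact_mod_cast hn
  refine ⟨by simp, ?_, ?_⟩
  · simp only
    push_cast
    have e : (u : ℝ) * a + v * b - (u * α + u * (u * μ + v) * n) =
        u * ((a - v * T) - (α + μ * (b + u * T))) + (u * μ + v) * b
          + u * (u * μ + v) * (T - n) := by ring
    have p1 : 0 ≤ (u : ℝ) * ((a - v * T) - (α + μ * (b + u * T))) := mul_nonneg hu' (by linarith)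
    have p2 : 0 ≤ ((u : ℝ) * μ + v) * b := mul_nonneg hq hb0
    have p3 : 0 ≤ (u : ℝ) * (u * μ + v) * (T - n) :=
      mul_nonneg (mul_nonneg hu' hq) (by linarith)
    linarith
  · simp only
    push_cast
    have e : (u : ℝ) * β - (s * (u : ℝ) ^ 2 - u * (u * μ + v)) * n - (u * a + v * b) =
        u * (β - (s - μ) * (b + u * T) - (a - v * T)) + (s * u - (u * μ + v)) * b
          + u * (s * u - (u * μ + v)) * (T - n) := by
      ring
    have p1 : 0 ≤ (u : ℝ) * (β - (s - μ) * (b + u * T) - (a - v * T)) :=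
      mul_nonneg hu' (by linarith)
    have p2 : 0 ≤ (s * u - ((u : ℝ) * μ + v)) * b := mul_nonneg (by linarith) hb0
    have p3 : 0 ≤ (u : ℝ) * (s * u - (u * μ + v)) * (T - n) :=
      mul_nonneg (mul_nonneg hu' (by linarith)) (by linarith)
    linarith

/-- the plane -/
theorem Tr.nf {μ c : ℝ} {L : List ℝ} (h : Tr 9 μ L c) : NB.Nf ℂ L.get (3 * c) := by
  intro w d hd
  refine Pool.Agent.TH545.Nag.nbEmp_of_Emp ?_
  have h1 := h.shift (4 - ⌊μ⌋)
  obtain ⟨τ, hτ⟩ : ∃ τ : ℝ, τ = (μ + ((4 - ⌊μ⌋ : ℤ) : ℝ)) / 3 - 1 := ⟨_, rfl⟩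
  have h3 : (⌊μ⌋ : ℝ) ≤ μ := Int.floor_le μ
  have h4 : μ < ⌊μ⌋ + 1 := Int.lt_floor_add_one μ
  apply Pool.Agent.TH603.EL.Emp_key (τ := τ) (by rw [hτ]; push_cast; linarith)
    (by rw [hτ]; push_cast; linarith)
  have e1 : 3 * (1 + τ) = μ + ((4 - ⌊μ⌋ : ℤ) : ℝ) := by rw [hτ]; ring
  have e2 : 3 * (2 - τ) = 9 - (μ + ((4 - ⌊μ⌋ : ℤ) : ℝ)) := by rw [hτ]; ring
  rw [e1, e2]
  apply h1
  linarith

theorem Tr.nf_one {c : ℝ} {L : List ℝ} (h : Tr 1 0 L c) : NB.Nf ℂ L.get c := by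
  intro w d hd
  refine Pool.Agent.TH545.Nag.nbEmp_of_Emp ((h 0 d w (by rw [sub_zero]; exact hd)).mono ?_)
  rintro ⟨a, b⟩ ⟨h1, h2, h3⟩
  simp only at h1 h2 h3
  refine ⟨h2, ?_, ?_⟩
  · simp only
    have : (0 : ℝ) ≤ a := by exact_mod_cast h1
    linarith
  · simp only
    have : (a : ℝ) + b ≤ d := by exact_mod_cast h3
    linarith

end Pool.Agent.TH207.NC
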