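import Pool.Agent.TH207.NC.Rep

/-! A few arbitrary large weights together with weights which are attained many times. -/

set_option autoImplicit false

namespace Pool.Agent.TH207.NC

open Finset Pool.Agent.TH176.Nag
open Pool.Agent.H350R3 Pool.Agent.H350R3.GR

/-- weights attained at least `96` times, all slopes -/
theorem TF.dust {N : ℕ} (hN : 96 ≤ N) {ι : Type} [Fintype ι] {L : ι → ℝ}
    (hL : ∀ i, 0 < L i) (hR : Rep N L) {A : ℝ} (hA : 0 < A) (hLA : ∀ i, 4 * L i ≤ A)
    (hs : 3 * A ^ 2 ≤ 2 * ∑ i, L i ^ 2) (μ : ℝ) : TF ((∑ i, L i ^ 2) / A ^ 2) μ L A := by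
  classical
  obtain ⟨σ, hσ⟩ : ∃ σ, σ = ∑ i, L i ^ 2 := ⟨_, rfl⟩
  have hne : Nonempty ι := by
    by_contra h
    rw [not_nonempty_iff] at h
    rw [univ_eq_empty, sum_empty] at hs
    have : 0 < A ^ 2 := by positivity
    linarith
  obtain ⟨i₁, -, hmax⟩ := Finset.exists_max_image (Finset.univ : Finset ι) L
    Finset.univ_nonempty
  obtain ⟨W, hW⟩ : ∃ W, W = L i₁ := ⟨_, rfl⟩
  have hW0 : 0 < W := by rw [hW]; exact hL i₁
  have h1 := TF.nest hN _ ι L le_rfl hL hR W
    (fun i => by rw [hW]; exact hmax i (Finset.mem_univ i)) ⟨i₁, hW.symm⟩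
  have hWA : 4 * W ≤ A := by rw [hW]; exact hLA i₁
  have hσW : 96 * W ^ 2 ≤ σ := by
    have h2 := sum_ge_of_rep hR i₁
    rw [← hσ, ← hW] at h2
    have h3 : (96 : ℝ) ≤ N := by exact_mod_cast hN
    have h4 : 96 * W ^ 2 ≤ N * W ^ 2 := mul_le_mul_of_nonneg_right h3 (sq_nonneg _)
    linarith
  rw [← hσ] at h1 hs ⊢
  have h32 : 3 ≤ 2 * (σ / A ^ 2) := by
    rw [← mul_div_assoc, le_div_iff₀ (by positivity)]
    linarith
  have eA : σ / (A / 2) ^ 2 = 4 * (σ / A ^ 2) := by
    field_simp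
    ring
  have e2 : 2 * (A / 2) = A := by ring
  suffices h : ∃ μ', TF (σ / (A / 2) ^ 2) μ' L (A / 2) by
    obtain ⟨μ', hμ'⟩ := h
    rw [eA] at hμ'
    have h2 := hμ'.nodal h32 μ
    rwa [e2] at h2
  rcases le_or_gt A (8 * W) with h8 | h8
  · exact h1 (A / 2) (by linarith) (by linarith)
  · obtain ⟨μ₁, hμ₁⟩ := h1 (2 * W) le_rfl (by linarith)
    have h33 : 3 ≤ 2 * (σ / (4 * W) ^ 2) := by
      rw [← mul_div_assoc, le_div_iff₀ (by positivity)]
      nlinarith
    have e3 : σ / (2 * W) ^ 2 = 4 * (σ / (4 * W) ^ 2) := by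
      field_simp
      ring
    rw [e3] at hμ₁
    have h2 := hμ₁.nodal h33
    obtain ⟨a, ha⟩ : ∃ a, a = A / (8 * W) := ⟨_, rfl⟩
    have ha1 : 1 ≤ a := by
      rw [ha, le_div_iff₀ (by positivity)]
      linarith
    have hσ0 : 0 < σ := lt_of_lt_of_le (by positivity) hσW
    have h3 : TF (σ / (A / 2) ^ 2) (σ / (A / 2) ^ 2 * a) L (2 * (2 * W) * a) := by
      apply TF.flat (by positivity) ha1
      have e4 : σ / (A / 2) ^ 2 * a ^ 2 = σ / (4 * W) ^ 2 := by
        rw [ha]
        field_simp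
        ring
      rw [e4]
      exact h2 _
    have e5 : 2 * (2 * W) * a = A / 2 := by
      rw [ha]
      field_simp
      ring
    rw [e5] at h3
    exact ⟨_, h3⟩

/-- one point of any weight `c μ ≤ c` absorbed into the left corner of a triangle with left
slope `μ`; the rest has a vertical diagonal (`Emp_second`; this is `T.corner` of `TH366/RC`) -/
theorem TF.corner {ι : Type} [Fintype ι] {s μ c : ℝ} {L : ι → ℝ} (hs : 0 < s) (h0 : 0 ≤ μ)
    (h1 : μ ≤ 1) (h2 : μ ≤ s) (h : TF (s - μ ^ 2) (μ * (1 - μ)) L c) :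
    TF s μ (Sum.elim (fun _ : Unit => c * μ) L) c := by
  intro α β w hw
  rw [Fintype.sum_sum_type] at hw
  simp only [Sum.elim_inl, Sum.elim_inr, Finset.univ_unique, Finset.sum_singleton] at hw
  have h' : TF 1 μ (fun _ : Unit => (1 : ℝ)) 1 := by
    have h3 := TF.points (ι := Unit) (by simp) μ
    simpa using h3
  have key := h'.absorb (w := fun i => w (Sum.inr i)) one_pos (fun i => w (Sum.inl i)) (α := α)
    (β := β) (ν := s - μ) (by linarith) ?_
  · have e : Sum.elim (fun i => w (Sum.inl i)) (fun i => w (Sum.inr i)) = w := by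
      funext i
      rcases i with i | i <;> rfl
    rwa [e] at key
  obtain ⟨B, hB⟩ : ∃ B : ℝ, B = (∑ i : Unit, 1 * (w (Sum.inl i) : ℝ)) / 1 := ⟨_, rfl⟩
  rw [← hB]
  have hB' : (w (Sum.inl default) : ℝ) = B := by
    rw [hB]
    simp
  rw [hB'] at hw
  refine Emp_second (x := μ) 1 0 isCoprime_one_left (by norm_num) zero_le_one h0
    (by push_cast; ring) (by push_cast; exact h1) (by push_cast; linarith) ?_
  have e1 : (1 - μ) * (1 * μ) = μ * (1 - μ) := by ring
  have e2 : (1 : ℝ) * (1 * (μ + (s - μ)) - 1 * μ) = s - μ ^ 2 - μ * (1 - μ) := by ring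
  push_cast
  rw [e1, e2]
  apply h
  have e3 : c * (1 * β - (1 * α + μ * B)) = c * (β - α) - c * μ * B := by ring
  rw [e3]
  linarith

/-- one arbitrary weight together with much smaller weights attained at least `96` times -/
theorem TF.tube {N : ℕ} (hN : 96 ≤ N) {ι : Type} [Fintype ι] {L : ι → ℝ}
    (hL : ∀ i, 0 < L i) (hR : Rep N L) {A w : ℝ} (hw : 0 < w) (hLA : ∀ i, 8 * L i ≤ A)
    (hwA : 2 * w ≤ A) (hs : 3 * A ^ 2 ≤ 2 * ∑ i, L i ^ 2) (μ : ℝ) :
    TF ((w ^ 2 + ∑ i, L i ^ 2) / A ^ 2) μ (Sum.elim (fun _ : Unit => w) L) A := by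
  have hA : 0 < A := by linarith
  obtain ⟨σ, hσ⟩ : ∃ σ, σ = ∑ i, L i ^ 2 := ⟨_, rfl⟩
  have hA2 : 0 < A ^ 2 := by positivity
  have hd := fun μ => TF.dust hN hL hR (A := A / 2) (by linarith)
    (fun i => by have := hLA i; linarith) (by linarith) μ
  rw [← hσ] at hd hs ⊢
  obtain ⟨δ, hδ⟩ : ∃ δ : ℝ, δ = (w ^ 2 + σ) / A ^ 2 := ⟨_, rfl⟩
  rw [← hδ]
  have h32 : 3 ≤ 2 * δ := by
    rw [hδ, ← mul_div_assoc, le_div_iff₀ (by positivity)]
    nlinarith [sq_nonneg w]
  obtain ⟨ν, hν⟩ : ∃ ν, ν = 2 * w / A := ⟨_, rfl⟩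
  have hν0 : 0 ≤ ν := by rw [hν]; positivity
  have hν1 : ν ≤ 1 := by
    rw [hν, div_le_one hA]
    exact hwA
  have h1 := TF.corner (s := 4 * δ) (μ := ν) (c := A / 2) (L := L) (by linarith) hν0 hν1
    (by linarith) (by
      have e1 : 4 * δ - ν ^ 2 = σ / (A / 2) ^ 2 := by
        rw [hδ, hν]
        field_simp
        ring
      rw [e1]
      exact hd _)
  have e2 : A / 2 * ν = w := by
    rw [hν]
    field_simp
  rw [e2] at h1
  have h2 := h1.nodal h32 μ
  have e3 : 2 * (A / 2) = A := by ring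
  rwa [e3] at h2

/-- cutting a triangle into several triangles of the same height -/
theorem TF.tubes {ι κ : Type} [Fintype ι] [DecidableEq κ] {L : ι → ℝ} {A : ℝ} (hA : 0 < A)
    (g : ι → κ) (T : Finset κ) :
    (∀ i ∈ T, 0 < ∑ x : {x // g x = i}, L x ^ 2 ∧
      ∀ μ, TF ((∑ x : {x // g x = i}, L x ^ 2) / A ^ 2) μ (fun x : {x // g x = i} => L x) A) →
    ∀ μ, TF ((∑ x : {x // g x ∈ T}, L x ^ 2) / A ^ 2) μ (fun x : {x // g x ∈ T} => L x) A := by
  classical
  induction T using Finset.induction_on with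
  | empty =>
    intro _ μ
    have hE : IsEmpty {x // g x ∈ (∅ : Finset κ)} := ⟨fun x => by simpa using x.2⟩
    rw [univ_eq_empty, sum_empty, zero_div]
    exact TF.nil hA _
  | insert i T hi ih =>
    intro h μ
    have hT := ih fun j hj => h j (Finset.mem_insert_of_mem hj)
    obtain ⟨h0, h1⟩ := h i (Finset.mem_insert_self i T)
    apply TF.split fun x : {x // g x ∈ insert i T} => g x = i
    let e₁ : {x : {x // g x ∈ insert i T} // g x = i} ≃ {x // g x = i} :=
      Equiv.subtypeSubtypeEquivSubtype (p := fun x => g x ∈ insert i T) (q := fun x => g x = i)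
        fun {x} hx => by rw [hx]; exact Finset.mem_insert_self i T
    let e₂ : {x : {x // g x ∈ insert i T} // ¬ g x = i} ≃ {x // g x ∈ T} :=
      { toFun := fun x => ⟨x.1.1, (Finset.mem_insert.1 x.1.2).resolve_left x.2⟩
        invFun := fun x => ⟨⟨x.1, Finset.mem_insert_of_mem x.2⟩, fun hx => hi (hx ▸ x.2)⟩
        left_inv := fun x => rfl
        right_inv := fun x => rfl }
    have s₁ : ∑ x : {x : {x // g x ∈ insert i T} // g x = i}, L x ^ 2 =
        ∑ x : {x // g x = i}, L x ^ 2 := e₁.sum_comp fun x => L x ^ 2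
    have s₂ : ∑ x : {x : {x // g x ∈ insert i T} // ¬ g x = i}, L x ^ 2 =
        ∑ x : {x // g x ∈ T}, L x ^ 2 := e₂.sum_comp fun x => L x ^ 2
    rw [sum_split (fun x : {x // g x ∈ insert i T} => L x ^ 2) fun x => g x = i, s₁, s₂,
      add_comm, add_div]
    have h3 : 0 < (∑ x : {x // g x = i}, L x ^ 2) / A ^ 2 := by positivity
    have h4 : 0 ≤ (∑ x : {x // g x ∈ T}, L x ^ 2) / A ^ 2 := by positivity
    have h5 := TF.add (s := (∑ x : {x // g x ∈ T}, L x ^ 2) / A ^ 2)
      (μ := μ - (∑ x : {x // g x = i}, L x ^ 2) / A ^ 2) (c := A)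
      (t := (∑ x : {x // g x = i}, L x ^ 2) / A ^ 2)
      (L := fun x : {x : {x // g x ∈ insert i T} // ¬ g x = i} => L x)
      (L' := fun x : {x : {x // g x ∈ insert i T} // g x = i} => L x)
      (by linarith) hA ((h1 _).equiv e₁) ((hT _).equiv e₂)
    rwa [sub_add_cancel] at h5

/-- distributing repeated values evenly -/
theorem exists_distribution {φ : Type} [Fintype φ] [DecidableEq φ] (L : φ → ℝ) {k N : ℕ}
    (hk : 0 < k) (hN : 0 < N)
    (hR : ∀ j, N * k ≤ (Finset.univ.filter fun x => L x = L j).card) :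
    ∃ g : φ → Fin k, ∀ i : Fin k,
      (∀ j, N ≤ (Finset.univ.filter fun x => g x = i ∧ L x = L j).card) ∧
      ∑ x, L x ^ 2 ≤ 2 * k * ∑ x ∈ Finset.univ.filter fun x => g x = i, L x ^ 2 := by
  classical
  let E : ∀ v : ℝ, {x // L x = v} ≃ Fin (Fintype.card {x // L x = v}) :=
    fun v => Fintype.equivFin _
  have hE : ∀ (v : ℝ) (y : {x // L x = v}), (E (L y.1) ⟨y.1, rfl⟩ : ℕ) = (E v y : ℕ) := by
    rintro v ⟨x, rfl⟩
    rfl
  let g : φ → Fin k := fun x => ⟨(E (L x) ⟨x, rfl⟩ : ℕ) % k, Nat.mod_lt _ hk⟩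
  have hcard : ∀ j, (Finset.univ.filter fun x => L x = L j).card =
      Fintype.card {x // L x = L j} := fun j => by rw [Fintype.card_subtype]
  have key : ∀ (i : Fin k) (j : φ), Fintype.card {x // L x = L j} / k ≤
      (Finset.univ.filter fun x => g x = i ∧ L x = L j).card := by
    intro i j
    obtain ⟨n, hn⟩ : ∃ n, n = Fintype.card {x // L x = L j} := ⟨_, rfl⟩
    have hlt : ∀ q : Fin (n / k), q * k + i < Fintype.card {x // L x = L j} := by
      intro q
      have h1 : (q : ℕ) + 1 ≤ n / k := q.2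
      have h2 : ((q : ℕ) + 1) * k ≤ n := (Nat.mul_le_mul_right k h1).trans (Nat.div_mul_le_self n k)
      have h3 := i.2
      rw [add_mul, one_mul] at h2
      omega
    rw [← hn]
    have h4 := Finset.card_le_card_of_injOn (s := (Finset.univ : Finset (Fin (n / k))))
      (t := Finset.univ.filter fun x => g x = i ∧ L x = L j)
      (fun q => ((E (L j)).symm ⟨q * k + i, hlt q⟩).1) (by
        intro q _
        have h5 := ((E (L j)).symm ⟨q * k + i, hlt q⟩).2
        have h6 := hE (L j) ((E (L j)).symm ⟨q * k + i, hlt q⟩)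
        rw [Equiv.apply_symm_apply] at h6
        simp only [Finset.coe_filter, Finset.mem_univ, true_and, Set.mem_ofPred_eq]
        refine ⟨?_, h5⟩
        apply Fin.ext
        simp only [g]
        rw [h6]
        simp only
        rw [mul_comm, Nat.mul_add_mod, Nat.mod_eq_of_lt i.2]) (by
        intro q _ q' _ h5
        have h6 := (E (L j)).symm.injective (Subtype.ext h5)
        rw [Fin.mk.injEq] at h6
        have h7 : (q : ℕ) * k = q' * k := by omega
        exact Fin.ext (Nat.eq_of_mul_eq_mul_right hk h7))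
    simpa using h4
  refine ⟨g, fun i => ⟨fun j => ?_, ?_⟩⟩
  · refine le_trans ?_ (key i j)
    rw [Nat.le_div_iff_mul_le hk, ← hcard]
    exact hR j
  · have hmap : ∀ s : Finset φ, ∀ x ∈ s, L x ∈ Finset.univ.image L := fun s x _ =>
      Finset.mem_image_of_mem _ (Finset.mem_univ x)
    rw [← Finset.sum_fiberwise_of_maps_to (hmap Finset.univ),
      ← Finset.sum_fiberwise_of_maps_to (hmap (Finset.univ.filter fun x => g x = i)),
      Finset.mul_sum]
    refine Finset.sum_le_sum fun v hv => ?_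
    obtain ⟨j, -, rfl⟩ := Finset.mem_image.1 hv
    rw [Finset.sum_congr rfl fun x hx => by rw [(Finset.mem_filter.1 hx).2], Finset.sum_const,
      Finset.sum_congr rfl fun x (hx : x ∈ (Finset.univ.filter fun x => g x = i).filter
        fun x => L x = L j) => by rw [(Finset.mem_filter.1 hx).2], Finset.sum_const,
      Finset.filter_filter, nsmul_eq_mul, nsmul_eq_mul, ← mul_assoc]
    refine mul_le_mul_of_nonneg_right ?_ (sq_nonneg _)
    rw [hcard]
    have h1 := key i j
    have h2 := hR j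
    rw [hcard] at h2
    have h3 : k ≤ Fintype.card {x // L x = L j} := le_trans (by
      calc k = 1 * k := (one_mul k).symm
        _ ≤ N * k := Nat.mul_le_mul_right k hN) h2
    have h4 : 1 ≤ Fintype.card {x // L x = L j} / k := by
      rw [Nat.le_div_iff_mul_le hk, one_mul]; exact h3
    have h5 := Nat.lt_div_mul_add (a := Fintype.card {x // L x = L j}) hk
    have h6 : Fintype.card {x // L x = L j} ≤
        2 * k * (Finset.univ.filter fun x => g x = i ∧ L x = L j).card := by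
      have h7 : Fintype.card {x // L x = L j} / k * k ≤
          (Finset.univ.filter fun x => g x = i ∧ L x = L j).card * k := Nat.mul_le_mul_right k h1
      have h8 : 1 * k ≤ (Finset.univ.filter fun x => g x = i ∧ L x = L j).card * k :=
        Nat.mul_le_mul_right k (h4.trans h1)
      nlinarith
    exact_mod_cast h6

/-- arbitrary weights together with much smaller weights attained many times -/
theorem TF.rare {κ φ : Type} [Fintype κ] [Fintype φ] [Nonempty κ] {R : κ → ℝ} {L : φ → ℝ}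
    (hR0 : ∀ i, 0 < R i) (hL0 : ∀ j, 0 < L j)
    (hrep : ∀ j, ∃ S : Finset φ, 96 * Fintype.card κ ≤ S.card ∧ ∀ i ∈ S, L i = L j) {A : ℝ}
    (hRA : ∀ i, 2 * R i ≤ A) (h4 : ∀ j, 8 * L j ≤ A)
    (hs : 3 * Fintype.card κ * A ^ 2 ≤ ∑ j, L j ^ 2) (μ : ℝ) :
    TF ((∑ x, Sum.elim R L x ^ 2) / A ^ 2) μ (Sum.elim R L) A := by
  classical
  obtain ⟨i₀⟩ := ‹Nonempty κ›
  have hA : 0 < A := by
    have := hR0 i₀
    have := hRA i₀
    linarith
  obtain ⟨k, hk⟩ : ∃ k, k = Fintype.card κ := ⟨_, rfl⟩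
  have hk0 : 0 < k := by rw [hk]; exact Fintype.card_pos_iff.2 ⟨i₀⟩
  have hk0' : (0 : ℝ) < k := by exact_mod_cast hk0
  rw [← hk] at hs
  let e : κ ≃ Fin k := Fintype.equivFinOfCardEq hk.symm
  obtain ⟨g, hg⟩ := exists_distribution L (k := k) (N := 96) hk0 (by norm_num) (by
    intro j
    obtain ⟨S, hS, hS'⟩ := hrep j
    rw [hk]
    exact hS.trans (Finset.card_le_card fun x hx => by
      rw [Finset.mem_filter]
      exact ⟨Finset.mem_univ x, hS' x hx⟩))
  let G : κ ⊕ φ → Fin k := Sum.elim e g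
  have htube : ∀ i : Fin k, 0 < ∑ x : {x // G x = i}, Sum.elim R L x ^ 2 ∧
      ∀ μ, TF ((∑ x : {x // G x = i}, Sum.elim R L x ^ 2) / A ^ 2) μ
        (fun x : {x // G x = i} => Sum.elim R L x) A := by
    intro i
    let ε : {x // G x = i} ≃ Unit ⊕ {j // g j = i} :=
      { toFun := fun x => match x with
          | ⟨Sum.inl _, _⟩ => Sum.inl ()
          | ⟨Sum.inr b, h⟩ => Sum.inr ⟨b, h⟩
        invFun := fun y => match y with
          | Sum.inl _ => ⟨Sum.inl (e.symm i), by simp [G]⟩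
          | Sum.inr b => ⟨Sum.inr b.1, b.2⟩
        left_inv := by
          rintro ⟨a | b, h⟩
          · have h' : e a = i := h
            simp [← h']
          · rfl
        right_inv := by
          rintro (a | b)
          · rfl
          · rfl }
    have hval : (fun x : {x // G x = i} => Sum.elim R L x) =
        fun x => Sum.elim (fun _ : Unit => R (e.symm i)) (fun j : {j // g j = i} => L j) (ε x) := by
      funext x
      rcases x with ⟨a | b, h⟩
      · have h' : e a = i := h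
        simp [ε, ← h']
      · rfl
    have hsum : ∑ x : {x // G x = i}, Sum.elim R L x ^ 2 =
        R (e.symm i) ^ 2 + ∑ j : {j // g j = i}, L j ^ 2 := by
      have h1 : ∑ x : {x // G x = i}, Sum.elim R L x ^ 2 =
          ∑ x : {x // G x = i}, (Sum.elim (fun _ : Unit => R (e.symm i))
            (fun j : {j // g j = i} => L j) (ε x)) ^ 2 :=
        Finset.sum_congr rfl fun x _ => by rw [← congrFun hval x]
      rw [h1, ε.sum_comp (fun y => (Sum.elim (fun _ : Unit => R (e.symm i))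
            (fun j : {j // g j = i} => L j) y) ^ 2), Fintype.sum_sum_type]
      simp
    obtain ⟨hg1, hg2⟩ := hg i
    have hsub : ∑ x ∈ Finset.univ.filter (fun x => g x = i), L x ^ 2 =
        ∑ j : {j // g j = i}, L j ^ 2 :=
      Finset.sum_subtype _ (fun x => by simp) _
    rw [hsub] at hg2
    refine ⟨?_, fun μ => ?_⟩
    · rw [hsum]
      have := hR0 (e.symm i)
      have : 0 ≤ ∑ j : {j // g j = i}, L j ^ 2 := by positivity
      positivity
    · rw [hsum, hval]
      refine TF.equiv ε (TF.tube (N := 96) (L := fun j : {j // g j = i} => L j)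
        (w := R (e.symm i)) le_rfl (fun j => hL0 j) ?_ (hR0 _) (fun j => h4 _) (hRA _) ?_ μ)
      · rintro ⟨j, hj⟩
        refine ⟨(Finset.univ.filter fun x => g x = i ∧ L x = L j).subtype (fun x => g x = i),
          ?_, ?_⟩
        · rw [Finset.card_subtype, Finset.filter_true_of_mem]
          · exact hg1 j
          · intro x hx
            exact (Finset.mem_filter.1 hx).2.1
        · intro x hx
          exact (Finset.mem_filter.1 (Finset.mem_subtype.1 hx)).2.2
      · have h5 : k * (3 * A ^ 2) ≤ k * (2 * ∑ j : {j // g j = i}, L j ^ 2) := by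
          linarith
        exact le_of_mul_le_mul_left h5 hk0'
  have h6 := TF.tubes hA G Finset.univ (fun i _ => htube i) μ
  let ε' : κ ⊕ φ ≃ {x : κ ⊕ φ // G x ∈ (Finset.univ : Finset (Fin k))} :=
    { toFun := fun x => ⟨x, Finset.mem_univ _⟩
      invFun := fun x => x.1
      left_inv := fun x => rfl
      right_inv := fun x => rfl }
  have h7 := h6.equiv ε'
  have h8 : ∑ x : {x : κ ⊕ φ // G x ∈ (Finset.univ : Finset (Fin k))}, Sum.elim R L x ^ 2 =
      ∑ x, Sum.elim R L x ^ 2 := (ε'.sum_comp fun x => Sum.elim R L x.1 ^ 2).symm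
  rwa [h8] at h7

/-- one arbitrary weight together with much smaller weights attained many times: the plane -/
theorem TF.one_plane {φ : Type} [Fintype φ] {w : ℝ} {L : φ → ℝ}
    (hw : 0 < w) (hL0 : ∀ j, 0 < L j) (hrep : Rep 96 L)
    (h4 : ∀ j, 144 * L j ^ 2 ≤ w ^ 2 + ∑ j, L j ^ 2)
    (hs : 9 * w ^ 2 ≤ w ^ 2 + ∑ j, L j ^ 2) :
    ∃ μ : ℝ, TF 9 μ (Sum.elim (fun _ : Unit => w) L) (√(w ^ 2 + ∑ j, L j ^ 2) / 3) := by
  obtain ⟨σ, hσ⟩ : ∃ σ, σ = ∑ j, L j ^ 2 := ⟨_, rfl⟩
  obtain ⟨q, hq⟩ : ∃ q, q = √(w ^ 2 + σ) := ⟨_, rfl⟩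
  have hσ0 : 0 ≤ σ := by rw [hσ]; positivity
  have hw2 : 0 < w ^ 2 := by positivity
  have hq2 : q ^ 2 = w ^ 2 + σ := by rw [hq]; exact Real.sq_sqrt (by linarith)
  have hq0 : 0 < q := by rw [hq]; exact Real.sqrt_pos.2 (by linarith)
  rw [← hσ] at h4 hs ⊢
  rw [← hq]
  have hq3 : 3 * w ≤ q := by
    rw [hq]
    apply Real.le_sqrt_of_sq_le
    nlinarith
  have hq12 : ∀ j, 4 * L j ≤ q / 3 := fun j => by
    have h5 : 12 * L j ≤ q := by
      rw [hq]
      apply Real.le_sqrt_of_sq_le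
      have := h4 j
      nlinarith
    linarith
  have hd := fun μ => TF.dust le_rfl hL0 hrep (A := q / 3) (by linarith) hq12 (by
    rw [← hσ]
    nlinarith) μ
  rw [← hσ] at hd
  obtain ⟨ν, hν⟩ : ∃ ν, ν = 3 * w / q := ⟨_, rfl⟩
  have hν0 : 0 ≤ ν := by rw [hν]; positivity
  have hν1 : ν ≤ 1 := by
    rw [hν, div_le_one hq0]
    exact hq3
  have h1 := TF.corner (s := 9) (μ := ν) (c := q / 3) (L := L) (by norm_num) hν0 hν1
    (by linarith) (by
      have e1 : 9 - ν ^ 2 = σ / (q / 3) ^ 2 := by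
        have e : σ = q ^ 2 - w ^ 2 := by rw [hq2]; ring
        rw [hν, e]
        field_simp
        ring
      rw [e1]
      exact hd _)
  have e2 : q / 3 * ν = w := by
    rw [hν]
    field_simp
  rw [e2] at h1
  exact ⟨_, h1⟩

/-- splitting the first part of an index type -/
theorem TF.split_left {ι υ : Type} [Fintype ι] [Fintype υ] {s μ c : ℝ} {L : ι → ℝ} {Q : υ → ℝ}
    (P : ι → Prop) [Fintype {i // P i}] [Fintype {i // ¬ P i}]
    (h : TF s μ (Sum.elim (fun i : {i // P i} => L i)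
      (Sum.elim (fun i : {i // ¬ P i} => L i) Q)) c) :
    TF s μ (Sum.elim L Q) c := by
  classical
  let e : {i // P i} ⊕ ({i // ¬ P i} ⊕ υ) ≃ ι ⊕ υ :=
    (Equiv.sumAssoc _ _ _).symm.trans (Equiv.sumCongr (Equiv.sumCompl P) (Equiv.refl υ))
  have h1 := h.equiv e.symm
  have e1 : (fun j => Sum.elim (fun i : {i // P i} => L i)
      (Sum.elim (fun i : {i // ¬ P i} => L i) Q) (e.symm j)) = Sum.elim L Q := by
    funext j
    obtain ⟨y, rfl⟩ := e.surjective j
    rw [Equiv.symm_apply_apply]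
    rcases y with y | y | y <;> rfl
  rwa [e1] at h1

/-- weights each of which is attained at least `96` times above a given system, for one left
slope -/
theorem TF.nest_unit {N : ℕ} (hN : 96 ≤ N) {υ : Type} [Fintype υ] {Q : υ → ℝ} {M : ℝ}
    (hM : 0 < M) (hQ0 : 0 < ∑ y, Q y ^ 2)
    (hU : ∀ A, 2 * M ≤ A → A ≤ 4 * M → ∀ μ, TF ((∑ y, Q y ^ 2) / A ^ 2) μ Q A) (k : ℕ) :
    ∀ (ι : Type) [Fintype ι] (L : ι → ℝ),
    Fintype.card ι ≤ k → (∀ i, M ≤ L i) → Rep N L → ∀ W : ℝ, (∀ i, L i ≤ W) →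
      (∃ i, L i = W) → ∀ A : ℝ, 2 * W ≤ A → A ≤ 4 * W → ∃ μ : ℝ,
        TF ((∑ i, L i ^ 2 + ∑ y, Q y ^ 2) / A ^ 2) μ (Sum.elim L Q) A := by
  classical
  induction k with
  | zero =>
    rintro ι _ L hk _ _ W _ ⟨i, _⟩
    exact absurd (Fintype.card_pos_iff.2 ⟨i⟩) (by omega)
  | succ k ih =>
    rintro ι _ L hk hLM hR W hW ⟨i₀, hi₀⟩ A hA2 hA4
    have hL : ∀ i, 0 < L i := fun i => hM.trans_le (hLM i)
    have hW0 : 0 < W := (hL i₀).trans_le (hW i₀)
    have hMW : M ≤ W := (hLM i₀).trans (hW i₀)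
    have hA0 : 0 < A := by linarith
    have hN' : (96 : ℝ) ≤ N := by exact_mod_cast hN
    obtain ⟨q, hq⟩ : ∃ q, q = ∑ y, Q y ^ 2 := ⟨_, rfl⟩
    rw [← hq] at hQ0 hU ih ⊢
    obtain ⟨σ, hσ⟩ : ∃ σ, σ = ∑ i, L i ^ 2 := ⟨_, rfl⟩
    rw [← hσ]
    -- the two parts
    obtain ⟨σ₁, hσ₁⟩ : ∃ σ₁, σ₁ = ∑ i : {i // W ≤ 2 * L i}, (L i) ^ 2 := ⟨_, rfl⟩
    obtain ⟨σ₂, hσ₂⟩ : ∃ σ₂, σ₂ = ∑ i : {i // ¬ W ≤ 2 * L i}, (L i) ^ 2 := ⟨_, rfl⟩
    have hσσ : σ = σ₁ + σ₂ := by
      rw [hσ, hσ₁, hσ₂]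
      exact sum_split (fun i => L i ^ 2) fun i => W ≤ 2 * L i
    have hσ₁0 : 0 ≤ σ₁ := by rw [hσ₁]; positivity
    have hσ₂0 : 0 ≤ σ₂ := by rw [hσ₂]; positivity
    have hσ0 : 0 < σ := by
      have h1 := sum_ge_of_rep hR i₀
      rw [← hσ, hi₀] at h1
      have h3 : 96 * W ^ 2 ≤ N * W ^ 2 := mul_le_mul_of_nonneg_right hN' (sq_nonneg _)
      have : 0 < 96 * W ^ 2 := by positivity
      linarith
    have hcomp : ∀ μ, TF (σ₁ / A ^ 2) μ (fun i : {i // W ≤ 2 * L i} => L i) A := by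
      intro μ
      rw [hσ₁]
      refine TF.comparable hN _ {i // W ≤ 2 * L i} (fun i => L i) le_rfl
        (fun i => hL i) (hR.sub fun x => W ≤ 2 * x) A hA0 (fun i => ?_) (fun i => ?_) μ
      · have := hW i
        linarith
      · have := i.2
        linarith
    -- the integer `u`
    obtain ⟨u, c₂, hu1, hcu, hrec⟩ : ∃ (u : ℕ) (c₂ : ℝ), 1 ≤ u ∧ c₂ * u = A ∧
        ∀ μ, TF ((σ₂ + q) / c₂ ^ 2) μ (Sum.elim (fun i : {i // ¬ W ≤ 2 * L i} => L i) Q) c₂ := by
      rcases isEmpty_or_nonempty {i // ¬ W ≤ 2 * L i} with hE | hne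
      · have h0 : σ₂ = 0 := by rw [hσ₂, univ_eq_empty, sum_empty]
        obtain ⟨u, hu⟩ : ∃ u : ℕ, u = ⌊A / (2 * M)⌋₊ := ⟨_, rfl⟩
        have hge : 1 ≤ A / (2 * M) := by
          rw [le_div_iff₀ (by positivity)]
          linarith
        have hu1 : 1 ≤ u := by
          rw [hu]
          exact Nat.le_floor (by exact_mod_cast hge)
        have hu1' : (1 : ℝ) ≤ u := by exact_mod_cast hu1
        have hu2 : (u : ℝ) ≤ A / (2 * M) := by
          rw [hu]
          exact Nat.floor_le (by linarith)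
        have hu3 : A / (2 * M) < u + 1 := by
          rw [hu]
          exact Nat.lt_floor_add_one _
        rw [le_div_iff₀ (by positivity)] at hu2
        rw [div_lt_iff₀ (by positivity)] at hu3
        refine ⟨u, A / u, hu1, by field_simp, fun μ => ?_⟩
        have h1 := hU (A / u) (by
            rw [le_div_iff₀ (by linarith)]
            linarith) (by
            rw [div_le_iff₀ (by linarith)]
            nlinarith) μ
        rw [h0, zero_add]
        have h2 := h1.equiv (Equiv.emptySum {i // ¬ W ≤ 2 * L i} υ)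
        have e : (fun j => Q ((Equiv.emptySum {i // ¬ W ≤ 2 * L i} υ) j)) =
            Sum.elim (fun i : {i // ¬ W ≤ 2 * L i} => L i) Q := by
          funext j
          rcases j with j | j
          · exact hE.elim j
          · rfl
        rwa [e] at h2
      · obtain ⟨i₁, -, hmax⟩ := Finset.exists_max_image (Finset.univ : Finset {i // ¬ W ≤ 2 * L i})
          (fun i => L i) Finset.univ_nonempty
        obtain ⟨V, hV⟩ : ∃ V, V = L i₁ := ⟨_, rfl⟩
        have hV0 : 0 < V := by rw [hV]; exact hL i₁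
        have hVW : 2 * V < W := by
          rw [hV]
          exact not_le.1 i₁.2
        obtain ⟨u, hu⟩ : ∃ u : ℕ, u = ⌊A / (4 * V)⌋₊ := ⟨_, rfl⟩
        have hge : 1 ≤ A / (4 * V) := by
          rw [le_div_iff₀ (by positivity)]
          linarith
        have hu1 : 1 ≤ u := by
          rw [hu]
          exact Nat.le_floor (by exact_mod_cast hge)
        have hu1' : (1 : ℝ) ≤ u := by exact_mod_cast hu1
        have hu2 : (u : ℝ) ≤ A / (4 * V) := by
          rw [hu]
          exact Nat.floor_le (by linarith)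
        have hu3 : A / (4 * V) < u + 1 := by
          rw [hu]
          exact Nat.lt_floor_add_one _
        rw [le_div_iff₀ (by positivity)] at hu2
        rw [div_lt_iff₀ (by positivity)] at hu3
        obtain ⟨c₂, hc₂⟩ : ∃ c₂, c₂ = A / u := ⟨_, rfl⟩
        have hc4 : 4 * V ≤ c₂ := by
          rw [hc₂, le_div_iff₀ (by linarith)]
          linarith
        have hc8 : c₂ ≤ 8 * V := by
          rw [hc₂, div_le_iff₀ (by linarith)]
          nlinarith
        have hR₂ := hR.sub fun x => ¬ W ≤ 2 * x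
        obtain ⟨μ₂, hμ₂⟩ := ih {i // ¬ W ≤ 2 * L i} (fun i => L i) (by
            have h3 : Fintype.card {i // ¬ W ≤ 2 * L i} < Fintype.card ι :=
              Fintype.card_subtype_lt (x := i₀) (by rw [not_not]; linarith)
            omega) (fun i => hLM i) hR₂ V
          (fun i => by rw [hV]; exact hmax i (Finset.mem_univ i)) ⟨i₁, hV.symm⟩
          (c₂ / 2) (by linarith) (by linarith)
        refine ⟨u, c₂, hu1, by rw [hc₂]; field_simp, fun μ => ?_⟩
        have hσV := sum_ge_of_rep hR₂ i₁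
        rw [← hσ₂, ← hV] at hσV
        have h3 : 96 * V ^ 2 ≤ N * V ^ 2 := mul_le_mul_of_nonneg_right hN' (sq_nonneg _)
        have hc₂0 : 0 < c₂ := by linarith
        have h32 : 3 ≤ 2 * ((σ₂ + q) / c₂ ^ 2) := by
          rw [← mul_div_assoc, le_div_iff₀ (by positivity)]
          have : c₂ ^ 2 ≤ 64 * V ^ 2 := by nlinarith
          linarith
        rw [← hσ₂] at hμ₂
        have e1 : (σ₂ + q) / (c₂ / 2) ^ 2 = 4 * ((σ₂ + q) / c₂ ^ 2) := by
          field_simp
          ring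
        rw [e1] at hμ₂
        have h4 := hμ₂.nodal h32 μ
        have e2 : 2 * (c₂ / 2) = c₂ := by ring
        rwa [e2] at h4
    have hu0 : (0 : ℝ) < u := by exact_mod_cast hu1
    have hc₂ : 0 < c₂ := by
      by_contra hcon
      push Not at hcon
      have := mul_nonpos_of_nonpos_of_nonneg hcon hu0.le
      linarith
    -- the step
    have hs0 : 0 < (σ + q) / A ^ 2 := by positivity
    have key := TF.first (s := (σ + q) / A ^ 2) (μ := (σ + q) / A ^ 2 - 1 / u) (c := c₂) (a := u)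
      (t := σ₁ / A ^ 2) (L := Sum.elim (fun i : {i // ¬ W ≤ 2 * L i} => L i) Q)
      (L' := fun i : {i // W ≤ 2 * L i} => L i) hs0 (by positivity) (u : ℤ) 1
      isCoprime_one_right (Int.natCast_nonneg u) (by rw [Int.cast_natCast, hcu]; exact hA0)
      (by
        rw [Int.cast_natCast, Int.cast_one]
        field_simp
        ring) (by rw [Int.cast_natCast]) (by
        rw [Int.cast_natCast, mul_comm ((σ + q) / A ^ 2)]
        refine mul_le_mul_of_nonneg_left ?_ hu0.le
        apply div_le_div_of_nonneg_right _ (by positivity)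
        linarith) (by rw [Int.cast_natCast, hcu]; exact hcomp _) (by
        rw [Int.cast_natCast]
        have e3 : (σ + q) / A ^ 2 * (u : ℝ) ^ 2 - σ₁ / A ^ 2 * (u : ℝ) ^ 2 =
            (σ₂ + q) / c₂ ^ 2 := by
          rw [hσσ, ← hcu]
          field_simp
          ring
        rw [e3]
        exact hrec _)
    rw [hcu] at key
    exact ⟨_, TF.split_left (fun i => W ≤ 2 * L i) key⟩

/-- from the range `[2 W, 4 W]` of constants to the plane -/
theorem TF.plane_of {ι : Type} [Fintype ι] {L : ι → ℝ} {W σ : ℝ} (hW0 : 0 < W)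
    (hσW : 96 * W ^ 2 ≤ σ)
    (h1 : ∀ A, 2 * W ≤ A → A ≤ 4 * W → ∃ μ, TF (σ / A ^ 2) μ L A) :
    ∃ μ : ℝ, TF 9 μ L (√σ / 3) := by
  have hσ0 : 0 < σ := lt_of_lt_of_le (by positivity) hσW
  have hs : √σ ^ 2 = σ := Real.sq_sqrt hσ0.le
  have hs0 : 0 < √σ := Real.sqrt_pos.2 hσ0
  rcases le_or_gt (12 * W) √σ with h12 | h12
  · obtain ⟨μ, hμ⟩ := h1 (2 * W) le_rfl (by linarith)
    have h32 : 3 ≤ 2 * (σ / (4 * W) ^ 2) := by
      rw [← mul_div_assoc, le_div_iff₀ (by positivity)]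
      nlinarith
    have e0 : σ / (2 * W) ^ 2 = 4 * (σ / (4 * W) ^ 2) := by
      field_simp
      ring
    rw [e0] at hμ
    have h2 := hμ.nodal h32
    obtain ⟨a, ha⟩ : ∃ a, a = √σ / (12 * W) := ⟨_, rfl⟩
    have ha1 : 1 ≤ a := by
      rw [ha, le_div_iff₀ (by positivity)]
      linarith
    refine ⟨9 * a, ?_⟩
    have e1 : √σ / 3 = 2 * (2 * W) * a := by
      rw [ha]
      field_simp
      ring
    rw [e1]
    apply TF.flat (by norm_num) ha1
    have e2 : 9 * a ^ 2 = σ / (4 * W) ^ 2 := by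
      rw [ha, div_pow, hs]
      field_simp
      ring
    rw [e2]
    exact h2 _
  · have h6 : 6 * W ≤ √σ := by
      apply Real.le_sqrt_of_sq_le
      nlinarith
    obtain ⟨μ, hμ⟩ := h1 (√σ / 3) (by linarith) (by linarith)
    refine ⟨μ, ?_⟩
    have e : σ / (√σ / 3) ^ 2 = 9 := by
      rw [div_pow, hs]
      field_simp
      norm_num
    rwa [e] at hμ

/-- weights of comparable size, general constants -/
theorem TF.comparable_of {N : ℕ} {r : ℝ} (hN : 1 ≤ N) (hr0 : 0 ≤ r) (hr : 3 * r ^ 2 ≤ 2 * N)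
    (k : ℕ) : ∀ (ι : Type) [Fintype ι] (L : ι → ℝ),
    Fintype.card ι ≤ k → (∀ i, 0 < L i) → Rep N L → ∀ A : ℝ, 0 < A → (∀ i, 2 * L i ≤ A) →
      (∀ i, A ≤ r * L i) → ∀ μ : ℝ, TF ((∑ i, L i ^ 2) / A ^ 2) μ L A := by
  classical
  induction k with
  | zero =>
    intro ι _ L hk _ _ A hA _ _ μ
    have : IsEmpty ι := Fintype.card_eq_zero_iff.1 (by omega)
    rw [univ_eq_empty, sum_empty, zero_div]
    exact TF.nil hA L
  | succ k ih =>
    intro ι _ L hk hL hR A hA h2 h8 μ
    rcases isEmpty_or_nonempty ι with hE | ⟨⟨i₀⟩⟩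
    · rw [univ_eq_empty, sum_empty, zero_div]
      exact TF.nil hA L
    obtain ⟨w, hw⟩ : ∃ w, w = L i₀ := ⟨_, rfl⟩
    have hw0 : 0 < w := by rw [hw]; exact hL i₀
    -- the block of `i₀`
    have hcard : N ≤ Fintype.card {i // L i = w} := by
      obtain ⟨S, hS, hS'⟩ := hR i₀
      rw [Fintype.card_subtype]
      refine hS.trans (Finset.card_le_card fun j hj => ?_)
      rw [Finset.mem_filter]
      exact ⟨Finset.mem_univ j, by rw [hS' j hj, hw]⟩
    have hcard1 : 1 ≤ Fintype.card {i // L i = w} := by omega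
    have hcardR : (N : ℝ) ≤ Fintype.card {i // L i = w} := by exact_mod_cast hcard
    have hlt : Fintype.card {i // ¬ L i = w} ≤ k := by
      have h3 : Fintype.card {i // ¬ L i = w} < Fintype.card ι :=
        Fintype.card_subtype_lt (x := i₀) (by rw [hw]; simp)
      omega
    have hb : ∀ μ, TF (Fintype.card {i // L i = w} * w ^ 2 / A ^ 2) μ
        (fun _ : {i // L i = w} => w) A := by
      intro μ
      apply TF.block hcard1 hw0 (by rw [hw]; exact h2 i₀)
      have h3 : A ≤ r * w := by rw [hw]; exact h8 i₀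
      have h4 : A ^ 2 ≤ r ^ 2 * w ^ 2 := by
        rw [← mul_pow]
        exact pow_le_pow_left₀ hA.le h3 2
      have h5 : N * w ^ 2 ≤ Fintype.card {i // L i = w} * w ^ 2 :=
        mul_le_mul_of_nonneg_right hcardR (sq_nonneg w)
      have h6 : 3 * r ^ 2 * w ^ 2 ≤ 2 * N * w ^ 2 :=
        mul_le_mul_of_nonneg_right hr (sq_nonneg w)
      linarith
    have hr' := ih {i // ¬ L i = w} (fun i => L i) hlt (fun i => hL i) (hR.sub fun x => ¬ x = w)
      A hA (fun i => h2 i) fun i => h8 i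
    have e1 : (fun i : {i // L i = w} => L i) = fun _ => w := by
      funext i
      exact i.2
    have e2 : ∑ i : {i // L i = w}, (L i) ^ 2 = Fintype.card {i // L i = w} * w ^ 2 := by
      rw [Finset.sum_congr rfl fun i _ => by rw [i.2], Finset.sum_const, Finset.card_univ,
        nsmul_eq_mul]
    apply TF.split fun i => L i = w
    rw [e1, sum_split (fun i => L i ^ 2) fun i => L i = w, e2, add_comm, add_div]
    have h5 : 0 < (Fintype.card {i // L i = w} : ℝ) * w ^ 2 / A ^ 2 := by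
      have : (0 : ℝ) < Fintype.card {i // L i = w} := by exact_mod_cast hcard1
      positivity
    have h6 : 0 ≤ (∑ i : {i // ¬ L i = w}, (L i) ^ 2) / A ^ 2 := by positivity
    have h7 := TF.add (s := (∑ i : {i // ¬ L i = w}, (L i) ^ 2) / A ^ 2)
      (μ := μ - Fintype.card {i // L i = w} * w ^ 2 / A ^ 2) (c := A)
      (t := Fintype.card {i // L i = w} * w ^ 2 / A ^ 2)
      (L := fun i : {i // ¬ L i = w} => L i) (L' := fun _ : {i // L i = w} => w)
      (by linarith) hA (hb _) (hr' _)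
    rwa [sub_add_cancel] at h7

/-- arbitrary weights at most `M`, much smaller weights attained many times, weights between `M / 4`
and `M` attained at least `384` times, and weights above `M` attained at least `96` times: the
plane -/
theorem TF.mixed_plane {β υ κ φ : Type} [Fintype β] [Fintype υ] [Fintype κ] [Fintype φ]
    [Nonempty κ] {B : β → ℝ} {V : υ → ℝ} {R : κ → ℝ} {L : φ → ℝ} {M : ℝ} (hM0 : 0 < M)
    (hRB : ∀ b, M ≤ B b) (hB : Rep 96 B)
    (hV1 : ∀ y, M ≤ 4 * V y) (hV2 : ∀ y, V y ≤ M) (hV : Rep 384 V)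
    (hR0 : ∀ i, 0 < R i) (hRM : ∀ i, R i ≤ M) (hL0 : ∀ j, 0 < L j)
    (hrep : ∀ j, ∃ S : Finset φ, 96 * Fintype.card κ ≤ S.card ∧ ∀ i ∈ S, L i = L j)
    (h4 : ∀ j, 4 * L j ≤ M)
    (hs1 : 48 * Fintype.card κ * M ^ 2 ≤ ∑ j, L j ^ 2) :
    ∃ μ : ℝ, TF 9 μ (Sum.elim B (Sum.elim V (Sum.elim R L)))
      (√(∑ x, Sum.elim B (Sum.elim V (Sum.elim R L)) x ^ 2) / 3) := by
  classical
  obtain ⟨k, hk⟩ : ∃ k, k = Fintype.card κ := ⟨_, rfl⟩
  have hk1 : (1 : ℝ) ≤ k := by
    have : 0 < k := by rw [hk]; exact Fintype.card_pos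
    exact_mod_cast this
  rw [← hk] at hs1
  have hkM : 0 ≤ (k - 1) * M ^ 2 := mul_nonneg (by linarith) (sq_nonneg M)
  have hkM0 : 0 < k * M ^ 2 := by positivity
  have hsplit : ∑ x, Sum.elim R L x ^ 2 = ∑ i, R i ^ 2 + ∑ j, L j ^ 2 := by
    rw [Fintype.sum_sum_type]
    rfl
  have hsplit2 : ∑ x, Sum.elim V (Sum.elim R L) x ^ 2 =
      ∑ y, V y ^ 2 + ∑ x, Sum.elim R L x ^ 2 := by
    rw [Fintype.sum_sum_type]
    rfl
  have hRnn : 0 ≤ ∑ i, R i ^ 2 := by positivity
  have hVnn : 0 ≤ ∑ y, V y ^ 2 := by positivity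
  have hunit0 : ∀ A, 2 * M ≤ A → A ≤ 4 * M → ∀ μ,
      TF ((∑ x, Sum.elim R L x ^ 2) / A ^ 2) μ (Sum.elim R L) A := by
    intro A hA2 hA4 μ
    refine TF.rare hR0 hL0 hrep (fun i => ?_) (fun j => ?_) ?_ μ
    · have := hRM i
      linarith
    · have := h4 j
      linarith
    · rw [← hk]
      have h1 : A ^ 2 ≤ 16 * M ^ 2 := by nlinarith
      have h2 : k * A ^ 2 ≤ k * (16 * M ^ 2) := mul_le_mul_of_nonneg_left h1 (by linarith)
      linarith
  have hunit : ∀ A, 2 * M ≤ A → A ≤ 4 * M → ∀ μ,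
      TF ((∑ x, Sum.elim V (Sum.elim R L) x ^ 2) / A ^ 2) μ (Sum.elim V (Sum.elim R L)) A := by
    intro A hA2 hA4 μ
    have hA0 : 0 < A := by linarith
    have h1 := TF.comparable_of (N := 384) (r := 16) (by norm_num) (by norm_num) (by norm_num)
      _ υ V le_rfl (fun y => by have := hV1 y; linarith) hV A hA0
      (fun y => by have := hV2 y; linarith) (fun y => by have := hV1 y; linarith)
    have h2 := hunit0 A hA2 hA4
    have h3 := TF.add (s := (∑ x, Sum.elim R L x ^ 2) / A ^ 2)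
      (μ := μ - (∑ y, V y ^ 2) / A ^ 2) (c := A) (t := (∑ y, V y ^ 2) / A ^ 2)
      (L := Sum.elim R L) (L' := V) (by
        have h4 : 0 < (∑ x, Sum.elim R L x ^ 2) / A ^ 2 := by
          apply div_pos _ (by positivity)
          rw [hsplit]
          linarith
        have h5 : 0 ≤ (∑ y, V y ^ 2) / A ^ 2 := by positivity
        linarith) hA0 (h1 _) (h2 _)
    rw [sub_add_cancel, ← add_div, add_comm, ← hsplit2] at h3
    exact h3
  have hq0 : 0 < ∑ x, Sum.elim V (Sum.elim R L) x ^ 2 := by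
    rw [hsplit2, hsplit]
    linarith
  rcases isEmpty_or_nonempty β with hE | hne
  · -- no larger weights
    obtain ⟨σ, hσ⟩ : ∃ σ, σ = ∑ x, Sum.elim V (Sum.elim R L) x ^ 2 := ⟨_, rfl⟩
    have hsum : ∑ x, Sum.elim B (Sum.elim V (Sum.elim R L)) x ^ 2 = σ := by
      rw [Fintype.sum_sum_type, univ_eq_empty, sum_empty, zero_add, hσ]
      rfl
    rw [hsum]
    have hσ36 : 36 * M ^ 2 ≤ σ := by
      rw [hσ, hsplit2, hsplit]
      nlinarith [sq_nonneg M]
    have hσ0 : 0 < σ := by rw [hσ]; exact hq0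
    have hq : √σ ^ 2 = σ := Real.sq_sqrt hσ0.le
    have hq6 : 6 * M ≤ √σ := by
      apply Real.le_sqrt_of_sq_le
      nlinarith
    obtain ⟨a, ha⟩ : ∃ a, a = √σ / (6 * M) := ⟨_, rfl⟩
    have ha1 : 1 ≤ a := by
      rw [ha, le_div_iff₀ (by positivity)]
      linarith
    refine ⟨9 * a, ?_⟩
    have e1 : √σ / 3 = 2 * M * a := by
      rw [ha]
      field_simp
      ring
    rw [e1]
    apply TF.flat (by norm_num) ha1
    have e2 : 9 * a ^ 2 = σ / (2 * M) ^ 2 := by
      rw [ha, div_pow, hq]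
      field_simp
      ring
    rw [e2]
    have h1 := hunit (2 * M) le_rfl (by linarith) (9 * a)
    rw [← hσ] at h1
    have h2 := h1.equiv (Equiv.emptySum β (υ ⊕ (κ ⊕ φ)))
    have e : (fun j => Sum.elim V (Sum.elim R L) ((Equiv.emptySum β (υ ⊕ (κ ⊕ φ))) j)) =
        Sum.elim B (Sum.elim V (Sum.elim R L)) := by
      funext j
      rcases j with j | j
      · exact hE.elim j
      · rfl
    rwa [e] at h2
  · obtain ⟨i₂, -, hmax₂⟩ := Finset.exists_max_image (Finset.univ : Finset β) B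
      Finset.univ_nonempty
    obtain ⟨W, hW⟩ : ∃ W, W = B i₂ := ⟨_, rfl⟩
    have hMW : M ≤ W := by rw [hW]; exact hRB _
    have h1 := TF.nest_unit (N := 96) le_rfl hM0 hq0 hunit _ β B le_rfl
      (fun b => hRB _) hB W
      (fun i => by rw [hW]; exact hmax₂ i (Finset.mem_univ i)) ⟨i₂, hW.symm⟩
    have hsum : ∑ x, Sum.elim B (Sum.elim V (Sum.elim R L)) x ^ 2 =
        ∑ b, B b ^ 2 + ∑ x, Sum.elim V (Sum.elim R L) x ^ 2 := by
      rw [Fintype.sum_sum_type]
      rfl
    rw [hsum]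
    refine TF.plane_of (hM0.trans_le hMW) ?_ h1
    have h2 := sum_ge_of_rep hB i₂
    rw [← hW] at h2
    push_cast at h2
    linarith

end Pool.Agent.TH207.NC
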