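import Pool.Agent.TH207.NC.Chain
import Pool.Agent.TH366.RC.Key

/-! Triangles of real slopes with families of weights; the nodal step. -/

set_option autoImplicit false

namespace Pool.Agent.TH207.NC

open Finset Pool.Agent.TH176.Nag
open Pool.Agent.H350R3 Pool.Agent.H350R3.GR

/-- the linear system on triangles of slope sum `s` and left slope `μ` is empty if the base is
shorter than the weighted sum -/
def TF {ι : Type} [Fintype ι] (s μ : ℝ) (L : ι → ℝ) (c : ℝ) : Prop :=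
  ∀ (α β : ℝ) (w : ι → ℕ), c * (β - α) < ∑ i, L i * (w i : ℝ) →
    Emp w (Reg α β μ (s - μ))

variable {ι κ : Type} [Fintype ι] [Fintype κ]

theorem TF.equiv {s μ c : ℝ} {L : ι → ℝ} (e : κ ≃ ι) (h : TF s μ L c) :
    TF s μ (fun j => L (e j)) c := by
  intro α β w hw
  have h1 := h α β (fun i => w (e.symm i)) (by
    rw [← e.sum_comp]
    simpa using hw)
  have h2 := Emp_equiv e h1
  simpa using h2

theorem TF.nil [IsEmpty ι] {μ c : ℝ} (hc : 0 < c) (L : ι → ℝ) : TF 0 μ L c := by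
  intro α β w hw
  rw [univ_eq_empty, sum_empty] at hw
  have h0 : β - α < 0 := by
    by_contra hcon
    push Not at hcon
    have := mul_nonneg hc.le hcon
    linarith
  refine (Emp_empty w).mono ?_
  rintro ⟨a, b⟩ ⟨h1, h2, h3⟩
  simp only at h1 h2 h3
  exfalso
  linarith

theorem TF.scale {s μ c a : ℝ} {L : ι → ℝ} (ha : 0 < a) (h : TF s μ L c) :
    TF s μ (fun i => a * L i) (a * c) := by
  intro α β w hw
  apply h
  have e : ∑ i, a * L i * (w i : ℝ) = a * ∑ i, L i * (w i : ℝ) := by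
    rw [Finset.mul_sum]
    exact Finset.sum_congr rfl fun i _ => by ring
  rw [e, mul_assoc] at hw
  exact lt_of_mul_lt_mul_left hw ha.le

theorem TF.points (h : 1 ≤ Fintype.card ι) (μ : ℝ) :
    TF (Fintype.card ι) μ (fun _ : ι => (1 : ℝ)) 1 := by
  intro α β w hw
  simp only [one_mul] at hw
  exact Emp_tri h w α β μ hw

theorem TF.shift {s μ c : ℝ} {L : ι → ℝ} (h : TF s μ L c) (m : ℤ) : TF s (μ + m) L c := by
  intro α β w hw
  refine (h α β w hw).comap 1 (-m) 0 1 0 0 (by norm_num) ?_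
  rintro ⟨a, b⟩ ⟨h1, h2, h3⟩
  simp only at h1 h2 h3
  refine ⟨by simpa using h1, ?_, ?_⟩
  · simp only; push_cast; linarith
  · simp only; push_cast; linarith

theorem TF.apex {s μ c : ℝ} {L : ι → ℝ} (hs : 0 < s) (h : TF (1 / s) 0 L c) :
    TF s μ L (c / s) := by
  intro α β w hw
  have h1 := h 0 ((β - α) / s) w (by
    have e : c * ((β - α) / s - 0) = c / s * (β - α) := by ring
    rw [e]; exact hw)
  refine Emp_flat 0 1 0 1 (by norm_num) ?_ h1
  rintro ⟨a, b⟩ T n ⟨hb, -, hr⟩ ⟨-, hl', -⟩ hn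
  simp only at hb hr hl'
  push_cast at hl'
  have hb0 : (0 : ℝ) ≤ b := by exact_mod_cast hb
  have hn' : (n : ℝ) ≤ T := by exact_mod_cast hn
  refine ⟨by simp, ?_, ?_⟩
  · simp only
    push_cast
    linarith
  · simp only
    push_cast
    have e : (β - α) / s - (1 / s - 0) * n = (β - α - n) / s := by ring
    rw [e, le_div_iff₀ hs]
    linarith

/-- points absorbed into the left corner of a triangle -/
theorem TF.absorb {w : ι → ℕ} {t μ c' : ℝ} {L' : κ → ℝ}
    (h' : TF t μ L' c') (hc' : 0 < c') (v : κ → ℕ)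
    {α β ν : ℝ} (h : 0 < μ + ν)
    (hw : Emp w {m : ℤ × ℤ | m ∈ Reg α β μ ν ∧
      α + (∑ i, L' i * (v i : ℝ)) / c' + (μ - t) * (m.2 : ℝ) ≤ (m.1 : ℝ)}) :
    Emp (Sum.elim v w) (Reg α β μ ν) := by
  obtain ⟨B, hB⟩ : ∃ B : ℝ, B = (∑ i, L' i * (v i : ℝ)) / c' := ⟨_, rfl⟩
  rw [← hB] at hw
  have hB' : c' * B = ∑ i, L' i * (v i : ℝ) := by
    rw [hB]; field_simp
  obtain ⟨S, hS⟩ : ∃ S : Set (ℤ × ℤ), S = {m | m ∈ Reg α β μ ν ∧
      (m.1 : ℝ) < α + B + (μ - t) * (m.2 : ℝ)} := ⟨_, rfl⟩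
  obtain ⟨T, hT⟩ : ∃ T : Set (ℤ × ℤ), T = {m | m ∈ Reg α β μ ν ∧
      α + B + (μ - t) * (m.2 : ℝ) ≤ (m.1 : ℝ)} := ⟨_, rfl⟩
  rw [← hT] at hw
  have hfin := Reg_finite (α := α) (β := β) h
  have hSf : S.Finite := by rw [hS]; exact hfin.subset fun m hm => hm.1
  have hTf : T.Finite := by rw [hT]; exact hfin.subset fun m hm => hm.1
  have hSv : Emp v S := by
    obtain ⟨δ, hδ0, hδ⟩ : ∃ δ : ℝ, 0 < δ ∧ ∀ m ∈ S, (m.1 : ℝ) ≤
        α + B + (μ - t) * (m.2 : ℝ) - δ := by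
      rcases S.eq_empty_or_nonempty with h1 | h1
      · refine ⟨1, one_pos, fun m hm => ?_⟩
        rw [h1] at hm
        exact absurd hm (Set.notMem_empty m)
      · obtain ⟨m0, hm0, hmax⟩ := Set.exists_max_image S
          (fun m => (m.1 : ℝ) - (μ - t) * (m.2 : ℝ)) hSf h1
        have hm0' := hm0
        rw [hS] at hm0'
        refine ⟨α + B - ((m0.1 : ℝ) - (μ - t) * (m0.2 : ℝ)),
          by have := hm0'.2; linarith, fun m hm => ?_⟩
        have := hmax m hm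
        linarith
    refine (h' α (α + B - δ) v ?_).mono ?_
    · have h2 : c' * (α + B - δ - α) = c' * B - c' * δ := by ring
      rw [h2, hB']
      have := mul_pos hc' hδ0
      linarith
    intro m hm
    have h2 := hδ m hm
    rw [hS] at hm
    obtain ⟨⟨g1, g2, g3⟩, g4⟩ := hm
    exact ⟨g1, g2, by linarith⟩
  have h1 := Emp_sep hSf hTf (μ - t) (α + B)
    (by
      intro m hm
      rw [hS] at hm
      have := hm.2
      linarith)
    (by
      intro m hm
      rw [hT] at hm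
      have := hm.2
      linarith) hSv hw
  refine h1.mono fun m hm => ?_
  by_cases h2 : (m.1 : ℝ) < α + B + (μ - t) * (m.2 : ℝ)
  · left; rw [hS]; exact ⟨hm, h2⟩
  · right; rw [hT]; exact ⟨hm, not_lt.1 h2⟩

/-- cutting a triangle into two triangles of the same height -/
theorem TF.add {s μ c t : ℝ} {L : ι → ℝ} {L' : κ → ℝ} (hs : 0 < s + t) (hc : 0 < c)
    (h' : TF t (μ + t) L' c) (h : TF s μ L c) :
    TF (s + t) (μ + t) (Sum.elim L' L) c := by
  intro α β w hw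
  rw [Fintype.sum_sum_type] at hw
  simp only [Sum.elim_inl, Sum.elim_inr] at hw
  have key := h'.absorb (w := fun i => w (Sum.inr i)) hc (fun i => w (Sum.inl i)) (α := α)
    (β := β) (ν := s + t - (μ + t)) (by linarith) ?_
  · have e : Sum.elim (fun i => w (Sum.inl i)) (fun i => w (Sum.inr i)) = w := by
      funext i
      rcases i with i | i <;> rfl
    rwa [e] at key
  obtain ⟨B, hB⟩ : ∃ B : ℝ, B = (∑ i, L' i * (w (Sum.inl i) : ℝ)) / c := ⟨_, rfl⟩
  rw [← hB]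
  have hB' : ∑ i, L' i * (w (Sum.inl i) : ℝ) = c * B := by
    rw [hB]; field_simp
  rw [hB'] at hw
  refine (h (α + B) β _ (by linarith)).mono ?_
  rintro ⟨a, b⟩ ⟨⟨h1, -, h3⟩, h4⟩
  simp only at h1 h3 h4
  refine ⟨h1, ?_, ?_⟩
  · simp only; linarith
  · simp only; linarith

/-- cutting a corner off and flattening along the first diagonal -/
theorem TF.first {s μ c a t : ℝ} {L : ι → ℝ} {L' : κ → ℝ} (hs : 0 < s) (ht : 0 ≤ t)
    (u v : ℤ) (hc : IsCoprime u v) (hu : 0 ≤ u) (hc0 : 0 < c * u)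
    (hq : s * a = u * μ + v) (h1 : (u : ℝ) ≤ a)
    (h2 : (u : ℝ) * t ≤ s * a) (h' : TF t μ L' (c * u))
    (h : TF (s * a ^ 2 - t * (u : ℝ) ^ 2) (u * (s * a - u * t)) L c) :
    TF s μ (Sum.elim L' L) (c * a) := by
  intro α β w hw
  rw [Fintype.sum_sum_type] at hw
  simp only [Sum.elim_inl, Sum.elim_inr] at hw
  have key := h'.absorb (w := fun i => w (Sum.inr i)) hc0 (fun i => w (Sum.inl i)) (α := α)
    (β := β) (ν := s - μ) (by linarith) ?_
  · have e : Sum.elim (fun i => w (Sum.inl i)) (fun i => w (Sum.inr i)) = w := by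
      funext i
      rcases i with i | i <;> rfl
    rwa [e] at key
  obtain ⟨B, hB⟩ : ∃ B : ℝ, B = (∑ i, L' i * (w (Sum.inl i) : ℝ)) / (c * u) := ⟨_, rfl⟩
  rw [← hB]
  have hB' : ∑ i, L' i * (w (Sum.inl i) : ℝ) = c * u * B := by
    rw [hB, mul_div_assoc', mul_div_cancel_left₀ _ hc0.ne']
  rw [hB'] at hw
  refine Emp_first (lam := a) u v hc hu ht ?_ h1 ?_ ?_
  · rw [← hq]; ring
  · rw [← hq]; exact h2
  rw [← hq]
  have e : (a - u) * (s * a) = s * a ^ 2 - t * (u : ℝ) ^ 2 - u * (s * a - u * t) := by ring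
  rw [e]
  apply h
  linarith

/-- flattening in the direction `(1, v)` -/
theorem TF.flat {s a c : ℝ} {L : ι → ℝ} (hs : 0 < s) (h1 : 1 ≤ a)
    (h : TF (s * a ^ 2) (s * a) L c) : TF s (s * a) L (c * a) := by
  intro α β w hw
  have h2 := Emp_first (w := w) (α := α) (β := β) (μ := s * a) (ν := s - s * a) (B := 0) (k := 0)
    (lam := a) 1 0 (isCoprime_one_left) (by norm_num) le_rfl (by push_cast; ring)
    (by push_cast; exact h1) (by push_cast; rw [mul_zero, one_mul, add_zero]; positivity) (by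
      push_cast
      have e : (a - 1) * (1 * (s * a) + 0) = s * a ^ 2 - s * a := by ring
      have e2 : (1 : ℝ) * (1 * (s * a) + 0 - 1 * 0) = s * a := by ring
      rw [e, e2]
      apply h
      linarith)
  refine h2.mono ?_
  rintro m hm
  refine ⟨hm, ?_⟩
  have := hm.2.1
  linarith

/-- the left slope of a triangle of slope sum at least `1` is arbitrary -/
theorem TF.univ {δ c : ℝ} {L : ι → ℝ} (hδ : 1 ≤ δ) (h : TF δ 0 L c) (μ : ℝ) : TF δ μ L c := by
  have hδ0 : 0 < δ := by linarith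
  have h1 : TF (1 / δ) 0 L (c * δ) := by
    intro α β w hw
    have h2 := Emp_first (w := w) (α := α) (β := β) (μ := 0) (ν := 1 / δ) (B := 0) (k := 0)
      (lam := δ) 1 1 (isCoprime_one_left) (by norm_num) le_rfl (by
        push_cast
        field_simp
        ring)
      (by push_cast; exact hδ) (by push_cast; norm_num) (by
        push_cast
        have e : (δ - 1) * (1 * 0 + 1) = δ - 1 := by ring
        have e2 : (1 : ℝ) * (1 * 0 + 1 - 1 * 0) = 1 := by ring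
        rw [e, e2]
        have h3 := h.shift 1
        simp only [Int.cast_one, zero_add] at h3
        apply h3
        linarith)
    refine h2.mono ?_
    rintro m hm
    rw [sub_zero] at hm
    refine ⟨hm, ?_⟩
    have := hm.2.1
    linarith
  have h4 := TF.apex (μ := μ) hδ0 h1
  rwa [mul_div_assoc, div_self hδ0.ne', mul_one] at h4

/-- the nodal step -/
theorem TF.nodal {δ μ c : ℝ} {L : ι → ℝ} (hδ : 3 ≤ 2 * δ)
    (h : TF (4 * δ) μ L c) (μ' : ℝ) : TF δ μ' L (2 * c) := by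
  apply TF.univ (by linarith)
  intro α β w hw
  obtain ⟨m, hm⟩ : ∃ m : ℤ, m = 1 - ⌈μ⌉ := ⟨_, rfl⟩
  have h1 := h.shift m
  obtain ⟨μ₁, hμ⟩ : ∃ μ₁ : ℝ, μ₁ = μ + m := ⟨_, rfl⟩
  rw [← hμ] at h1
  have hμ0 : 0 < μ₁ := by
    rw [hμ, hm]
    push_cast
    linarith [Int.ceil_lt_add_one μ]
  have hμ1 : μ₁ ≤ 1 := by
    rw [hμ, hm]
    push_cast
    linarith [Int.le_ceil μ]
  have hδ0 : 0 < δ := by linarith
  rcases lt_or_ge (β - α) 0 with hneg | hpos
  · refine (Emp_empty w).mono ?_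
    rintro ⟨a, b⟩ ⟨k1, k2, k3⟩
    simp only at k1 k2 k3
    exfalso
    have hb0 : (0 : ℝ) ≤ b := by exact_mod_cast k1
    have := mul_nonneg hδ0.le hb0
    linarith
  have h2 := Pool.Agent.TH366.RC.Emp_nodal (w := w) (δ := δ) (e := β - α) hδ hpos
    (a := μ₁ / (4 * δ)) (b := (4 * δ - μ₁) / (4 * δ)) (by positivity)
    (div_pos (by linarith) (by positivity)) (by field_simp; ring) (by
      rw [Ne, div_left_inj' (by positivity)]
      intro h0
      linarith) (by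
      have e6 : 4 * δ * (μ₁ / (4 * δ)) = μ₁ := by field_simp
      have e7 : 4 * δ * ((4 * δ - μ₁) / (4 * δ)) = 4 * δ - μ₁ := by field_simp
      rw [e6, e7]
      apply h1
      have e8 : 2 * ((4 * δ - μ₁) / (4 * δ)) * (β - α) - -(2 * (μ₁ / (4 * δ)) * (β - α)) =
          2 * (β - α) := by
        field_simp
        ring
      rw [e8]
      linarith)
  refine h2.comap 1 0 0 1 (-⌈α⌉) 0 (by norm_num) ?_
  rintro ⟨x, y⟩ ⟨hy, hx, hxy⟩
  simp only at hy hx hxy
  have h5 : ⌈α⌉ ≤ x := Int.ceil_le.2 (by linarith)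
  have h6 : α ≤ ⌈α⌉ := Int.le_ceil α
  refine ⟨by simp only; omega, by simp only; omega, ?_⟩
  simp only
  push_cast
  linarith

theorem TF.nf {r : ℕ} {μ c : ℝ} {L : Fin r → ℝ} (h : TF 9 μ L c) : NB.Nf ℂ L (3 * c) := by
  intro w d hd
  refine Pool.Agent.TH545.Nag.nbEmp_of_Emp ?_
  have h1 := h.shift (4 - ⌊μ⌋)
  obtain ⟨τ, hτ⟩ : ∃ τ : ℝ, τ = (μ + ((4 - ⌊μ⌋ : ℤ) : ℝ)) / 3 - 1 := ⟨_, rfl⟩
  have h3 : (⌊μ⌋ : ℝ) ≤ μ := Int.floor_le μ
  have h4 : μ < ⌊μ⌋ + 1 := Int.lt_floor_add_one μ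
  apply Pool.Agent.TH603.EL.Emp_key (τ := τ) (by rw [hτ]; push_cast; linarith)
    (by rw [hτ]; push_cast; linarith)
  have e1 : 3 * (1 + τ) = μ + ((4 - ⌊μ⌋ : ℤ) : ℝ) := by rw [hτ]; ring
  have e2 : 3 * (2 - τ) = 9 - (μ + ((4 - ⌊μ⌋ : ℤ) : ℝ)) := by rw [hτ]; ring
  rw [e1, e2]
  apply h1
  linarith

end Pool.Agent.TH207.NC
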