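import Pool.Agent.TH207.NC.Fun

/-! Weights which are attained many times. -/

set_option autoImplicit false

namespace Pool.Agent.TH207.NC

open Finset Pool.Agent.TH176.Nag
open Pool.Agent.H350R3 Pool.Agent.H350R3.GR

/-- a block of equal weights on a triangle of arbitrary slopes -/
theorem TF.block {ι : Type} [Fintype ι] {w A : ℝ} (hn : 1 ≤ Fintype.card ι) (hw : 0 < w)
    (hA : 2 * w ≤ A) (hn' : 3 * A ^ 2 ≤ 2 * (Fintype.card ι * w ^ 2)) (μ : ℝ) :
    TF (Fintype.card ι * w ^ 2 / A ^ 2) μ (fun _ : ι => w) A := by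
  have hA0 : 0 < A := by linarith
  obtain ⟨δ, hδ⟩ : ∃ δ : ℝ, δ = Fintype.card ι * w ^ 2 / A ^ 2 := ⟨_, rfl⟩
  have hn0 : (1 : ℝ) ≤ Fintype.card ι := by exact_mod_cast hn
  have h32 : 3 ≤ 2 * δ := by
    rw [hδ, ← mul_div_assoc, le_div_iff₀ (by positivity)]
    linarith
  rw [← hδ]
  have hδ0 : 0 < 4 * δ := by linarith
  obtain ⟨a, ha⟩ : ∃ a : ℝ, a = A / (2 * w) := ⟨_, rfl⟩
  have ha1 : 1 ≤ a := by
    rw [ha, le_div_iff₀ (by positivity)]
    linarith
  have h1 : TF (4 * δ) (4 * δ * a) (fun _ : ι => w) (w * a) := by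
    apply TF.flat hδ0 ha1
    have e : 4 * δ * a ^ 2 = Fintype.card ι := by
      rw [hδ, ha]
      field_simp
      ring
    rw [e]
    have h2 := (TF.points (ι := ι) hn (4 * δ * a)).scale hw
    simpa using h2
  have h2 := h1.nodal h32 μ
  have e2 : 2 * (w * a) = A := by
    rw [ha]
    field_simp
  rwa [e2] at h2

/-- every value of `L` is attained at least `N` times -/
def Rep {ι : Type} [Fintype ι] (N : ℕ) (L : ι → ℝ) : Prop :=
  ∀ i, ∃ S : Finset ι, N ≤ S.card ∧ ∀ j ∈ S, L j = L i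

theorem Rep.sub {ι : Type} [Fintype ι] {N : ℕ} {L : ι → ℝ} (h : Rep N L) (P : ℝ → Prop)
    [Fintype {i // P (L i)}] : Rep N (fun i : {i // P (L i)} => L i) := by
  classical
  rintro ⟨i, hi⟩
  obtain ⟨S, hS, hS'⟩ := h i
  refine ⟨S.subtype (fun j => P (L j)), ?_, ?_⟩
  · rw [Finset.card_subtype, Finset.filter_true_of_mem]
    · exact hS
    · intro j hj
      rw [hS' j hj]; exact hi
  · intro j hj
    exact hS' j (Finset.mem_subtype.1 hj)

/-- splitting an index type -/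
theorem TF.split {ι : Type} [Fintype ι] {s μ c : ℝ} {L : ι → ℝ} (P : ι → Prop)
    [Fintype {i // P i}] [Fintype {i // ¬ P i}]
    (h : TF s μ (Sum.elim (fun i : {i // P i} => L i) (fun i : {i // ¬ P i} => L i)) c) :
    TF s μ L c := by
  classical
  have h1 := h.equiv (Equiv.sumCompl P).symm
  have e : (fun j => Sum.elim (fun i : {i // P i} => L i) (fun i : {i // ¬ P i} => L i)
      ((Equiv.sumCompl P).symm j)) = L := by
    funext j
    by_cases hj : P j
    · rw [Equiv.sumCompl_symm_apply_of_pos hj]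
      rfl
    · rw [Equiv.sumCompl_symm_apply_of_neg hj]
      rfl
  rwa [e] at h1

theorem sum_split {ι : Type} [Fintype ι] (f : ι → ℝ) (P : ι → Prop)
    [Fintype {i // P i}] [Fintype {i // ¬ P i}] :
    ∑ i, f i = ∑ i : {i // P i}, f i + ∑ i : {i // ¬ P i}, f i := by
  classical
  rw [← (Equiv.sumCompl P).sum_comp, Fintype.sum_sum_type]
  rfl

/-- weights of comparable size -/
theorem TF.comparable {N : ℕ} (hN : 96 ≤ N) (k : ℕ) : ∀ (ι : Type) [Fintype ι] (L : ι → ℝ),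
    Fintype.card ι ≤ k → (∀ i, 0 < L i) → Rep N L → ∀ A : ℝ, 0 < A → (∀ i, 2 * L i ≤ A) →
      (∀ i, A ≤ 8 * L i) → ∀ μ : ℝ, TF ((∑ i, L i ^ 2) / A ^ 2) μ L A := by
  classical
  induction k with
  | zero =>
    intro ι _ L hk _ _ A hA _ _ μ
    have : IsEmpty ι := Fintype.card_eq_zero_iff.1 (by omega)
    rw [univ_eq_empty, sum_empty, zero_div]
    exact TF.nil hA L
  | succ k ih =>
    intro ι _ L hk hL hR A hA h2 h8 μ
    rcases isEmpty_or_nonempty ι with hE | ⟨⟨i₀⟩⟩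
    · rw [univ_eq_empty, sum_empty, zero_div]
      exact TF.nil hA L
    obtain ⟨w, hw⟩ : ∃ w, w = L i₀ := ⟨_, rfl⟩
    have hw0 : 0 < w := by rw [hw]; exact hL i₀
    -- the block of `i₀`
    have hcard : N ≤ Fintype.card {i // L i = w} := by
      obtain ⟨S, hS, hS'⟩ := hR i₀
      rw [Fintype.card_subtype]
      refine hS.trans (Finset.card_le_card fun j hj => ?_)
      rw [Finset.mem_filter]
      exact ⟨Finset.mem_univ j, by rw [hS' j hj, hw]⟩
    have hcard1 : 1 ≤ Fintype.card {i // L i = w} := by omega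
    have hcardR : (96 : ℝ) ≤ Fintype.card {i // L i = w} := by exact_mod_cast hN.trans hcard
    have hlt : Fintype.card {i // ¬ L i = w} ≤ k := by
      have h3 : Fintype.card {i // ¬ L i = w} < Fintype.card ι :=
        Fintype.card_subtype_lt (x := i₀) (by rw [hw]; simp)
      omega
    have hb : ∀ μ, TF (Fintype.card {i // L i = w} * w ^ 2 / A ^ 2) μ
        (fun _ : {i // L i = w} => w) A := by
      intro μ
      apply TF.block hcard1 hw0 (by rw [hw]; exact h2 i₀)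
      have h3 : A ≤ 8 * w := by rw [hw]; exact h8 i₀
      have h4 : A ^ 2 ≤ 64 * w ^ 2 := by nlinarith
      have h5 : 96 * w ^ 2 ≤ Fintype.card {i // L i = w} * w ^ 2 :=
        mul_le_mul_of_nonneg_right hcardR (sq_nonneg w)
      linarith
    have hr := ih {i // ¬ L i = w} (fun i => L i) hlt (fun i => hL i) (hR.sub fun x => ¬ x = w)
      A hA (fun i => h2 i) fun i => h8 i
    have e1 : (fun i : {i // L i = w} => L i) = fun _ => w := by
      funext i
      exact i.2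
    have e2 : ∑ i : {i // L i = w}, (L i) ^ 2 = Fintype.card {i // L i = w} * w ^ 2 := by
      rw [Finset.sum_congr rfl fun i _ => by rw [i.2], Finset.sum_const, Finset.card_univ,
        nsmul_eq_mul]
    apply TF.split fun i => L i = w
    rw [e1, sum_split (fun i => L i ^ 2) fun i => L i = w, e2, add_comm, add_div]
    have h5 : 0 < (Fintype.card {i // L i = w} : ℝ) * w ^ 2 / A ^ 2 := by
      have : (0 : ℝ) < Fintype.card {i // L i = w} := by linarith
      positivity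
    have h6 : 0 ≤ (∑ i : {i // ¬ L i = w}, (L i) ^ 2) / A ^ 2 := by positivity
    have h7 := TF.add (s := (∑ i : {i // ¬ L i = w}, (L i) ^ 2) / A ^ 2)
      (μ := μ - Fintype.card {i // L i = w} * w ^ 2 / A ^ 2) (c := A)
      (t := Fintype.card {i // L i = w} * w ^ 2 / A ^ 2)
      (L := fun i : {i // ¬ L i = w} => L i) (L' := fun _ : {i // L i = w} => w)
      (by linarith) hA (hb _) (hr _)
    rwa [sub_add_cancel] at h7

theorem sum_ge_of_rep {ι : Type} [Fintype ι] {N : ℕ} {L : ι → ℝ} (hR : Rep N L) (i : ι) :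
    N * L i ^ 2 ≤ ∑ j, L j ^ 2 := by
  classical
  obtain ⟨S, hS, hS'⟩ := hR i
  have h1 : ∑ j ∈ S, L j ^ 2 = S.card * L i ^ 2 := by
    rw [Finset.sum_congr rfl fun j hj => by rw [hS' j hj], Finset.sum_const, nsmul_eq_mul]
  have h2 : ∑ j ∈ S, L j ^ 2 ≤ ∑ j, L j ^ 2 :=
    Finset.sum_le_sum_of_subset_of_nonneg (Finset.subset_univ S) fun _ _ _ => sq_nonneg _
  have h3 : (N : ℝ) * L i ^ 2 ≤ S.card * L i ^ 2 :=
    mul_le_mul_of_nonneg_right (by exact_mod_cast hS) (sq_nonneg _)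
  linarith

/-- weights each of which is attained at least `96` times, for one left slope -/
theorem TF.nest {N : ℕ} (hN : 96 ≤ N) (k : ℕ) : ∀ (ι : Type) [Fintype ι] (L : ι → ℝ),
    Fintype.card ι ≤ k → (∀ i, 0 < L i) → Rep N L → ∀ W : ℝ, (∀ i, L i ≤ W) →
      (∃ i, L i = W) → ∀ A : ℝ, 2 * W ≤ A → A ≤ 4 * W → ∃ μ : ℝ,
        TF ((∑ i, L i ^ 2) / A ^ 2) μ L A := by
  classical
  induction k with
  | zero =>
    rintro ι _ L hk _ _ W _ ⟨i, _⟩
    exact absurd (Fintype.card_pos_iff.2 ⟨i⟩) (by omega)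
  | succ k ih =>
    rintro ι _ L hk hL hR W hW ⟨i₀, hi₀⟩ A hA2 hA4
    have hW0 : 0 < W := (hL i₀).trans_le (hW i₀)
    have hA0 : 0 < A := by linarith
    have hN' : (96 : ℝ) ≤ N := by exact_mod_cast hN
    obtain ⟨σ, hσ⟩ : ∃ σ, σ = ∑ i, L i ^ 2 := ⟨_, rfl⟩
    rw [← hσ]
    -- the two parts
    obtain ⟨σ₁, hσ₁⟩ : ∃ σ₁, σ₁ = ∑ i : {i // W ≤ 2 * L i}, (L i) ^ 2 := ⟨_, rfl⟩
    obtain ⟨σ₂, hσ₂⟩ : ∃ σ₂, σ₂ = ∑ i : {i // ¬ W ≤ 2 * L i}, (L i) ^ 2 := ⟨_, rfl⟩
    have hσσ : σ = σ₁ + σ₂ := by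
      rw [hσ, hσ₁, hσ₂]
      exact sum_split (fun i => L i ^ 2) fun i => W ≤ 2 * L i
    have hσ₁0 : 0 ≤ σ₁ := by rw [hσ₁]; positivity
    have hσ₂0 : 0 ≤ σ₂ := by rw [hσ₂]; positivity
    have hσ0 : 0 < σ := by
      have h1 := sum_ge_of_rep hR i₀
      rw [← hσ, hi₀] at h1
      have h3 : 96 * W ^ 2 ≤ N * W ^ 2 := mul_le_mul_of_nonneg_right hN' (sq_nonneg _)
      have : 0 < 96 * W ^ 2 := by positivity
      linarith
    have hcomp : ∀ μ, TF (σ₁ / A ^ 2) μ (fun i : {i // W ≤ 2 * L i} => L i) A := by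
      intro μ
      rw [hσ₁]
      refine TF.comparable hN _ {i // W ≤ 2 * L i} (fun i => L i) le_rfl
        (fun i => hL i) (hR.sub fun x => W ≤ 2 * x) A hA0 (fun i => ?_) (fun i => ?_) μ
      · have := hW i
        linarith
      · have := i.2
        linarith
    -- the integer `u`
    obtain ⟨u, c₂, hu1, hcu, hrec⟩ : ∃ (u : ℕ) (c₂ : ℝ), 1 ≤ u ∧ c₂ * u = A ∧
        ∀ μ, TF (σ₂ / c₂ ^ 2) μ (fun i : {i // ¬ W ≤ 2 * L i} => L i) c₂ := by
      rcases isEmpty_or_nonempty {i // ¬ W ≤ 2 * L i} with hE | hne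
      · refine ⟨1, A, le_rfl, by simp, fun μ => ?_⟩
        have h0 : σ₂ = 0 := by rw [hσ₂, univ_eq_empty, sum_empty]
        rw [h0, zero_div]
        exact TF.nil hA0 _
      · obtain ⟨i₁, -, hmax⟩ := Finset.exists_max_image (Finset.univ : Finset {i // ¬ W ≤ 2 * L i})
          (fun i => L i) Finset.univ_nonempty
        obtain ⟨V, hV⟩ : ∃ V, V = L i₁ := ⟨_, rfl⟩
        have hV0 : 0 < V := by rw [hV]; exact hL i₁
        have hVW : 2 * V < W := by
          rw [hV]
          exact not_le.1 i₁.2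
        obtain ⟨u, hu⟩ : ∃ u : ℕ, u = ⌊A / (4 * V)⌋₊ := ⟨_, rfl⟩
        have hge : 1 ≤ A / (4 * V) := by
          rw [le_div_iff₀ (by positivity)]
          linarith
        have hu1 : 1 ≤ u := by
          rw [hu]
          exact Nat.le_floor (by exact_mod_cast hge)
        have hu1' : (1 : ℝ) ≤ u := by exact_mod_cast hu1
        have hu2 : (u : ℝ) ≤ A / (4 * V) := by
          rw [hu]
          exact Nat.floor_le (by linarith)
        have hu3 : A / (4 * V) < u + 1 := by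
          rw [hu]
          exact Nat.lt_floor_add_one _
        rw [le_div_iff₀ (by positivity)] at hu2
        rw [div_lt_iff₀ (by positivity)] at hu3
        obtain ⟨c₂, hc₂⟩ : ∃ c₂, c₂ = A / u := ⟨_, rfl⟩
        have hc4 : 4 * V ≤ c₂ := by
          rw [hc₂, le_div_iff₀ (by linarith)]
          linarith
        have hc8 : c₂ ≤ 8 * V := by
          rw [hc₂, div_le_iff₀ (by linarith)]
          nlinarith
        have hR₂ := hR.sub fun x => ¬ W ≤ 2 * x
        obtain ⟨μ₂, hμ₂⟩ := ih {i // ¬ W ≤ 2 * L i} (fun i => L i) (by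
            have h3 : Fintype.card {i // ¬ W ≤ 2 * L i} < Fintype.card ι :=
              Fintype.card_subtype_lt (x := i₀) (by rw [not_not]; linarith)
            omega) (fun i => hL i) hR₂ V
          (fun i => by rw [hV]; exact hmax i (Finset.mem_univ i)) ⟨i₁, hV.symm⟩
          (c₂ / 2) (by linarith) (by linarith)
        refine ⟨u, c₂, hu1, by rw [hc₂]; field_simp, fun μ => ?_⟩
        have hσV := sum_ge_of_rep hR₂ i₁
        rw [← hσ₂, ← hV] at hσV
        have h3 : 96 * V ^ 2 ≤ N * V ^ 2 := mul_le_mul_of_nonneg_right hN' (sq_nonneg _)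
        have hc₂0 : 0 < c₂ := by linarith
        have h32 : 3 ≤ 2 * (σ₂ / c₂ ^ 2) := by
          rw [← mul_div_assoc, le_div_iff₀ (by positivity)]
          have : c₂ ^ 2 ≤ 64 * V ^ 2 := by nlinarith
          linarith
        rw [← hσ₂] at hμ₂
        have e1 : σ₂ / (c₂ / 2) ^ 2 = 4 * (σ₂ / c₂ ^ 2) := by
          field_simp
          ring
        rw [e1] at hμ₂
        have h4 := hμ₂.nodal h32 μ
        have e2 : 2 * (c₂ / 2) = c₂ := by ring
        rwa [e2] at h4
    have hu0 : (0 : ℝ) < u := by exact_mod_cast hu1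
    have hc₂ : 0 < c₂ := by
      by_contra hcon
      push Not at hcon
      have := mul_nonpos_of_nonpos_of_nonneg hcon hu0.le
      linarith
    -- the step
    have hs0 : 0 < σ / A ^ 2 := by positivity
    have key := TF.first (s := σ / A ^ 2) (μ := σ / A ^ 2 - 1 / u) (c := c₂) (a := u)
      (t := σ₁ / A ^ 2) (L := fun i : {i // ¬ W ≤ 2 * L i} => L i)
      (L' := fun i : {i // W ≤ 2 * L i} => L i) hs0 (by positivity) (u : ℤ) 1
      isCoprime_one_right (Int.natCast_nonneg u) (by rw [Int.cast_natCast, hcu]; exact hA0)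
      (by
        rw [Int.cast_natCast, Int.cast_one]
        field_simp
        ring) (by rw [Int.cast_natCast]) (by
        rw [Int.cast_natCast, mul_comm (σ / A ^ 2)]
        refine mul_le_mul_of_nonneg_left ?_ hu0.le
        apply div_le_div_of_nonneg_right _ (by positivity)
        linarith) (by rw [Int.cast_natCast, hcu]; exact hcomp _) (by
        rw [Int.cast_natCast]
        have e3 : σ / A ^ 2 * (u : ℝ) ^ 2 - σ₁ / A ^ 2 * (u : ℝ) ^ 2 = σ₂ / c₂ ^ 2 := by
          rw [hσσ, ← hcu]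
          field_simp
          ring
        rw [e3]
        exact hrec _)
    rw [hcu] at key
    exact ⟨_, TF.split (fun i => W ≤ 2 * L i) key⟩

/-- weights each of which is attained at least `96` times: the plane -/
theorem TF.plane {N : ℕ} (hN : 96 ≤ N) {ι : Type} [Fintype ι] [Nonempty ι] {L : ι → ℝ}
    (hL : ∀ i, 0 < L i) (hR : Rep N L) :
    ∃ μ : ℝ, TF 9 μ L (√(∑ i, L i ^ 2) / 3) := by
  classical
  obtain ⟨i₁, -, hmax⟩ := Finset.exists_max_image (Finset.univ : Finset ι) L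
    Finset.univ_nonempty
  obtain ⟨W, hW⟩ : ∃ W, W = L i₁ := ⟨_, rfl⟩
  have hW0 : 0 < W := by rw [hW]; exact hL i₁
  obtain ⟨σ, hσ⟩ : ∃ σ, σ = ∑ i, L i ^ 2 := ⟨_, rfl⟩
  have h1 := TF.nest hN _ ι L le_rfl hL hR W
    (fun i => by rw [hW]; exact hmax i (Finset.mem_univ i)) ⟨i₁, hW.symm⟩
  rw [← hσ] at h1 ⊢
  have hσW : 96 * W ^ 2 ≤ σ := by
    have h2 := sum_ge_of_rep hR i₁
    rw [← hσ, ← hW] at h2
    have h3 : (96 : ℝ) ≤ N := by exact_mod_cast hN
    have h4 : 96 * W ^ 2 ≤ N * W ^ 2 := mul_le_mul_of_nonneg_right h3 (sq_nonneg _)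
    linarith
  have hσ0 : 0 < σ := lt_of_lt_of_le (by positivity) hσW
  have hs : √σ ^ 2 = σ := Real.sq_sqrt hσ0.le
  have hs0 : 0 < √σ := Real.sqrt_pos.2 hσ0
  rcases le_or_gt (12 * W) √σ with h12 | h12
  · obtain ⟨μ, hμ⟩ := h1 (2 * W) le_rfl (by linarith)
    have h32 : 3 ≤ 2 * (σ / (4 * W) ^ 2) := by
      rw [← mul_div_assoc, le_div_iff₀ (by positivity)]
      nlinarith
    have e0 : σ / (2 * W) ^ 2 = 4 * (σ / (4 * W) ^ 2) := by
      field_simp
      ring
    rw [e0] at hμ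
    have h2 := hμ.nodal h32
    obtain ⟨a, ha⟩ : ∃ a, a = √σ / (12 * W) := ⟨_, rfl⟩
    have ha1 : 1 ≤ a := by
      rw [ha, le_div_iff₀ (by positivity)]
      linarith
    refine ⟨9 * a, ?_⟩
    have e1 : √σ / 3 = 2 * (2 * W) * a := by
      rw [ha]
      field_simp
      ring
    rw [e1]
    apply TF.flat (by norm_num) ha1
    have e2 : 9 * a ^ 2 = σ / (4 * W) ^ 2 := by
      rw [ha, div_pow, hs]
      field_simp
      ring
    rw [e2]
    exact h2 _
  · have h6 : 6 * W ≤ √σ := by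
      apply Real.le_sqrt_of_sq_le
      nlinarith
    obtain ⟨μ, hμ⟩ := h1 (√σ / 3) (by linarith) (by linarith)
    refine ⟨μ, ?_⟩
    have e : σ / (√σ / 3) ^ 2 = 9 := by
      rw [div_pow, hs]
      field_simp
      norm_num
    rwa [e] at hμ

end Pool.Agent.TH207.NC
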