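import Pool.Agent.TH207.NC.Sep
import Pool.Agent.TH176.Nag.Region
import Pool.Agent.TH603.EL.Key

/-! Two flattenings of a triangle with a cut corner; chains of such steps. -/

set_option autoImplicit false

namespace Pool.Agent.TH207.NC

open Finset Pool.Agent.TH176.Nag

/-- the first flattening of a triangle with a cut corner: the vertex of the cut and the right
vertex of the base are aligned -/
theorem Emp_first {ι : Type} {w : ι → ℕ} {α β μ ν B k lam : ℝ} (u v : ℤ) (hc : IsCoprime u v)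
    (hu : 0 ≤ u) (hk : 0 ≤ k) (hlam : lam * (μ + ν) = u * μ + v)
    (h1 : (u : ℝ) ≤ lam) (h2 : (u : ℝ) * k ≤ u * μ + v)
    (hw : Emp w (Reg (u * (α + B)) (u * α + lam * (β - α)) (u * (u * μ + v - u * k))
      ((lam - u) * (u * μ + v)))) :
    Emp w {m : ℤ × ℤ | m ∈ Reg α β μ ν ∧ α + B + (μ - k) * (m.2 : ℝ) ≤ (m.1 : ℝ)} := by
  obtain ⟨p, q, hpq⟩ := hc
  refine Emp_flat u v p q (by linarith) ?_ hw
  rintro ⟨a, b⟩ T n ⟨⟨hb, -, hr⟩, -⟩ ⟨⟨-, hl', -⟩, hc'⟩ hn
  simp only at hb hr hl' hc'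
  push_cast at hl' hc'
  have hu' : (0 : ℝ) ≤ u := by exact_mod_cast hu
  have hb0 : (0 : ℝ) ≤ b := by exact_mod_cast hb
  have hn' : (n : ℝ) ≤ T := by exact_mod_cast hn
  have hn0 : (0 : ℝ) ≤ n := Nat.cast_nonneg n
  have hq : 0 ≤ (u : ℝ) * μ + v := (mul_nonneg hu' hk).trans h2
  refine ⟨by simp, ?_, ?_⟩
  · simp only
    push_cast
    have e : (u : ℝ) * a + v * b - (u * (α + B) + u * (u * μ + v - u * k) * n) =
        u * ((a - v * T) - (α + B + (μ - k) * (b + u * T))) + (u * μ + v - u * k) * b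
          + u * (u * μ + v - u * k) * (T - n) := by ring
    have p1 : 0 ≤ (u : ℝ) * ((a - v * T) - (α + B + (μ - k) * (b + u * T))) :=
      mul_nonneg hu' (by linarith)
    have p2 : 0 ≤ ((u : ℝ) * μ + v - u * k) * b := mul_nonneg (by linarith) hb0
    have p3 : 0 ≤ (u : ℝ) * (u * μ + v - u * k) * (T - n) :=
      mul_nonneg (mul_nonneg hu' (by linarith)) (by linarith)
    linarith
  · simp only
    push_cast
    have e : (u : ℝ) * α + lam * (β - α) - (lam - u) * (u * μ + v) * n - (u * a + v * b) =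
        lam * (β - ν * b - a) + (lam - u) * ((a - v * T) - (α + μ * (b + u * T)))
          + (lam - u) * (u * μ + v) * (T - n) := by
      linear_combination b * hlam
    have hlam0 : 0 ≤ lam := hu'.trans h1
    have p1 : 0 ≤ lam * (β - ν * b - a) := mul_nonneg hlam0 (by linarith)
    have p2 : 0 ≤ (lam - u) * ((a - v * T) - (α + μ * (b + u * T))) :=
      mul_nonneg (by linarith) (by linarith)
    have p3 : 0 ≤ (lam - u) * (u * μ + v) * (T - n) :=
      mul_nonneg (mul_nonneg (by linarith) hq) (by linarith)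
    linarith

/-- the second flattening of a triangle with a cut corner: the left vertex of the base and the
top vertex are aligned -/
theorem Emp_second {ι : Type} {w : ι → ℕ} {α β μ ν B k x : ℝ} (u v : ℤ) (hc : IsCoprime u v)
    (hu : 0 ≤ u) (hk : 0 ≤ k) (hx0 : 0 ≤ x) (hx : k * x = u * μ + v)
    (h1 : x ≤ u) (h2 : (u : ℝ) * μ + v ≤ u * (μ + ν))
    (hw : Emp w (Reg (u * α + x * B) (u * β) ((u - x) * (k * x))
      (u * (u * (μ + ν) - k * x)))) :
    Emp w {m : ℤ × ℤ | m ∈ Reg α β μ ν ∧ α + B + (μ - k) * (m.2 : ℝ) ≤ (m.1 : ℝ)} := by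
  obtain ⟨p, q, hpq⟩ := hc
  refine Emp_flat u v p q (by linarith) ?_ hw
  rintro ⟨a, b⟩ T n ⟨⟨hb, -, -⟩, hc'⟩ ⟨⟨-, hl', hr'⟩, -⟩ hn
  simp only at hb hr' hl' hc'
  push_cast at hl' hr'
  have hu' : (0 : ℝ) ≤ u := by exact_mod_cast hu
  have hb0 : (0 : ℝ) ≤ b := by exact_mod_cast hb
  have hn' : (n : ℝ) ≤ T := by exact_mod_cast hn
  have hn0 : (0 : ℝ) ≤ n := Nat.cast_nonneg n
  refine ⟨by simp, ?_, ?_⟩
  · simp only
    push_cast
    have e : (u : ℝ) * a + v * b - (u * α + x * B + (u - x) * (k * x) * n) =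
        x * (a - (α + B + (μ - k) * b)) + (u - x) * ((a - v * T) - (α + μ * (b + u * T)))
          + (u - x) * (k * x) * (T - n) := by
      linear_combination (-b - (u - x) * T) * hx
    have p1 : 0 ≤ x * (a - (α + B + (μ - k) * b)) := mul_nonneg hx0 (by linarith)
    have p2 : 0 ≤ (u - x) * ((a - v * T) - (α + μ * (b + u * T))) :=
      mul_nonneg (by linarith) (by linarith)
    have p3 : 0 ≤ (u - x) * (k * x) * (T - n) :=
      mul_nonneg (mul_nonneg (by linarith) (mul_nonneg hk hx0)) (by linarith)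
    linarith
  · simp only
    push_cast
    have e : (u : ℝ) * β - u * (u * (μ + ν) - k * x) * n - (u * a + v * b) =
        u * (β - ν * (b + u * T) - (a - v * T)) + (u * (μ + ν) - (u * μ + v)) * b
          + u * (u * (μ + ν) - (u * μ + v)) * (T - n) := by
      linear_combination (u * n) * hx
    have p1 : 0 ≤ (u : ℝ) * (β - ν * (b + u * T) - (a - v * T)) := mul_nonneg hu' (by linarith)
    have p2 : 0 ≤ ((u : ℝ) * (μ + ν) - (u * μ + v)) * b := mul_nonneg (by linarith) hb0
    have p3 : 0 ≤ (u : ℝ) * (u * (μ + ν) - (u * μ + v)) * (T - n) :=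
      mul_nonneg (mul_nonneg hu' (by linarith)) (by linarith)
    linarith

end Pool.Agent.TH207.NC
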